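import Pool.Agent.Helper82.RC.Stm

/-!
# The Hasse invariant of a unimodular plus a scaled unimodular form, all odd primes

helper82, after the library module N545/PF/Pad (helper545), where `q` is 1 modulo 4.
-/

set_option autoImplicit false
set_option linter.all false
set_option maxHeartbeats 4000000

open Matrix

namespace Pool.Agent.Helper82.RC

open Pool.Agent.N202.M4 (hasse hil IsSymbol)
open Pool.Agent.N783.PF (HV)
open Pool.Agent.N446.M4 (sym_)
open Pool.Agent.N507.PQ (hasse_units prod_ne unit_iff hil_units hil_p)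
open Pool.Agent.N545.PF (hasse_append hv_cong schur isUnit_int)

section sym

variable {F : Type} [Field F] {h : F → F → ℤ}

theorem h_qq [CharZero F] (hs : IsSymbol h) {q : F} (hq : q ≠ 0) : h q q = h q (-1) := by
  have h1 : h q (-q) = 1 := by
    refine hs.one q (-q) ((1 + q⁻¹) / 2) ((1 - q⁻¹) / 2) hq (neg_ne_zero.2 hq) ?_
    field_simp
    ring
  have h2 : h q (-q) = h q (-1) * h q q := by
    rw [← hs.mul q (-1) q hq (neg_ne_zero.2 one_ne_zero) hq, neg_one_mul]
  rw [h1] at h2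
  rcases hs.pm q (-1) with h3 | h3 <;> rcases hs.pm q q with h4 | h4 <;> rw [h3, h4] at h2 <;>
    rw [h3, h4] <;> norm_num at h2

theorem h_scaled2 (hs : IsSymbol h) {q u v : F} (hq : q ≠ 0) (hu : u ≠ 0)
    (hv : v ≠ 0) (huv : h u v = 1) : h (q * u) (q * v) = h q q * h q u * h q v := by
  have hqu : q * u ≠ 0 := mul_ne_zero hq hu
  rw [hs.mul _ _ _ hqu hq hv, hs.symm (q * u) q, hs.symm (q * u) v, hs.mul _ _ _ hq hq hu,
    hs.mul _ _ _ hv hq hu, hs.symm v u, huv, hs.symm v q, mul_one]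

theorem hasse_scaled2 (hs : IsSymbol h) {q : F} (hq : q ≠ 0) (us : List F)
    (hne : ∀ u ∈ us, u ≠ 0) (hun : ∀ u ∈ us, ∀ v ∈ us, h u v = 1) :
    hasse h (us.map fun x => q * x) * h q us.prod =
      (h q q) ^ (us.length.choose 2) * (h q us.prod) ^ us.length := by
  induction us with
  | nil =>
    rw [List.map_nil, List.prod_nil, Pool.Agent.N424.M4.h_one hs hq]
    simp [hasse]
  | cons u us ih =>
    have hne' : ∀ x ∈ us, x ≠ 0 := fun x hx => hne x (List.mem_cons_of_mem _ hx)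
    have hu : u ≠ 0 := hne u List.mem_cons_self
    have ih' := ih hne' fun x hx y hy => hun x (List.mem_cons_of_mem _ hx) y
      (List.mem_cons_of_mem _ hy)
    have e1 : ((us.map fun x => q * x).map (h (q * u))).prod =
        (h q q) ^ us.length * h q u ^ us.length * h q us.prod := by
      rw [List.map_map, ← Pool.Agent.N424.M4.h_prod hs hq us hne']
      have e2 : us.map (h (q * u) ∘ fun x => q * x) = us.map fun v => h q q * h q u * h q v := by
        refine List.map_congr_left fun v hv => ?_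
        exact h_scaled2 hs hq hu (hne' v hv) (hun u List.mem_cons_self v
          (List.mem_cons_of_mem _ hv))
      rw [e2, List.prod_map_mul, List.map_const', List.prod_replicate, mul_pow]
    rw [List.map_cons, hasse, e1, List.prod_cons, hs.mul _ _ _ hq hu (prod_ne hne'),
      List.length_cons, Nat.choose_succ_succ' us.length 1, Nat.choose_one_right, pow_add]
    calc (h q q) ^ us.length * h q u ^ us.length * h q us.prod *
          hasse h (us.map fun x => q * x) *
          (h q u * h q us.prod) = (h q q) ^ us.length * h q u ^ us.length * h q u * h q us.prod *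
            (hasse h (us.map fun x => q * x) * h q us.prod) := by ring
      _ = _ := by rw [ih']; ring

theorem hasse_two2 [CharZero F] (hs : IsSymbol h) {q : F} (hq : q ≠ 0)
    (us ws : List F) (hne : ∀ u ∈ us, u ≠ 0) (hne' : ∀ u ∈ ws, u ≠ 0)
    (hun : ∀ u ∈ us, ∀ v ∈ us, h u v = 1)
    (hwn : ∀ u ∈ ws, ∀ v ∈ ws, h u v = 1) (huw : ∀ u ∈ us, ∀ v ∈ ws, h u v = 1)
    (hev : Even us.length) :
    hasse h ((us.map fun x => q * x) ++ ws) = h q ((-1) ^ (us.length / 2) * us.prod) := by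
  have h1 := hasse_scaled2 hs hq us hne hun
  rw [hasse_append, hasse_units ws hwn, mul_one]
  have e1 : ((us.map fun x => q * x).map fun x => (ws.map (h x)).prod).prod = 1 := by
    rw [List.map_map]
    have e2 : us.map ((fun x => (ws.map (h x)).prod) ∘ fun x => q * x) =
        us.map fun _ => (ws.map (h q)).prod := by
      refine List.map_congr_left fun v hv => ?_
      show (ws.map (h (q * v))).prod = (ws.map (h q)).prod
      congr 1
      refine List.map_congr_left fun w hw => ?_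
      rw [hs.symm, hs.mul _ _ _ (hne' w hw) hq (hne v hv), hs.symm w q, hs.symm w v,
        huw v hv w hw, mul_one]
    rw [e2, List.map_const', List.prod_replicate]
    have e3 : (ws.map (h q)).prod = 1 ∨ (ws.map (h q)).prod = -1 := by
      rw [Pool.Agent.N424.M4.h_prod hs hq ws hne']
      exact hs.pm _ _
    rcases e3 with h2 | h2 <;> rw [h2]
    · exact one_pow _
    · exact hev.neg_one_pow
  rw [e1, mul_one]
  have hm1 : (-1 : F) ≠ 0 := neg_ne_zero.2 one_ne_zero
  obtain ⟨m, hm⟩ := hev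
  have hm' : us.length = 2 * m := by omega
  have e4 : us.length / 2 = m := by omega
  have e5 : ∀ k : ℕ, h q ((-1) ^ k) = (h q (-1)) ^ k := by
    intro k
    induction k with
    | zero => rw [pow_zero, pow_zero]; exact Pool.Agent.N424.M4.h_one hs hq
    | succ k ih => rw [pow_succ, pow_succ, hs.mul _ _ _ hq (pow_ne_zero _ hm1) hm1, ih]
  rw [e4, hs.mul _ _ _ hq (pow_ne_zero _ hm1) (prod_ne hne), e5]
  have e6 : (h q us.prod) ^ us.length = 1 := by
    rw [hm', pow_mul]
    rcases hs.pm q us.prod with h2 | h2 <;> rw [h2] <;> norm_num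
  have e7 : (h q q) ^ (us.length.choose 2) = (h q (-1)) ^ m := by
    rw [h_qq hs hq, hm', Nat.choose_two_right]
    have e8 : 2 * m * (2 * m - 1) / 2 = (2 * m - 1) * m := by
      rw [mul_assoc, Nat.mul_div_cancel_left _ two_pos, mul_comm]
    rw [e8, pow_mul]
    rcases Nat.eq_zero_or_pos m with h0 | h0
    · rw [h0, pow_zero, pow_zero]
    · congr 1
      have hodd : Odd (2 * m - 1) := ⟨m - 1, by omega⟩
      rcases hs.pm q (-1) with h2 | h2 <;> rw [h2]
      · exact one_pow _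
      · exact hodd.neg_one_pow
  rw [e6, mul_one, e7] at h1
  rcases hs.pm q us.prod with h2 | h2
  · rw [h2, mul_one] at h1
    rw [h1, h2, mul_one]
  · rw [h2] at h1
    rw [h2]
    linarith

end sym

section pad

variable {q : ℕ} [hq : Fact q.Prime]

theorem hv_block' (hq2 : q ≠ 2) {f r : ℕ} (hf : Even f)
    (V₁ : Matrix (Fin f) (Fin f) ℤ) (B : Matrix (Fin f) (Fin r) ℤ) (V₀ : Matrix (Fin r) (Fin r) ℤ)
    (h₁ : V₁.IsSymm) (h₀ : V₀.IsSymm) (d₁ : ¬ (q : ℤ) ∣ V₁.det) (d₀ : ¬ (q : ℤ) ∣ V₀.det) :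
    HV ((Matrix.fromBlocks ((q : ℤ) • V₁) ((q : ℤ) • B) ((q : ℤ) • Bᵀ) V₀).map
      (Int.castRingHom ℚ_[q])) (if IsSquare ((((-1) ^ (f / 2) * V₁.det : ℤ)) : ZMod q) then 1 else -1) := by
  have hsym : IsSymbol (hil ℚ_[q]) := sym_ q
  set ι : ℤ →+* ℤ_[q] := Int.castRingHom ℤ_[q] with hι
  set A₁ := V₁.map ι with hA₁
  set U := V₀.map ι with hU
  set Bz := B.map ι with hBz
  have h2 : IsUnit (2 : ℤ_[q]) := by
    have := isUnit_int (q := q) (m := 2) (Pool.Agent.W335.BMX.two_not_dvd hq2)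
    exact_mod_cast this
  have hUs : U.IsSymm := h₀.map ι
  have hA₁s : A₁.IsSymm := h₁.map ι
  have hUd : IsUnit U.det := by
    have e1 : U.det = ((V₀.det : ℤ) : ℤ_[q]) := (ι.map_det V₀).symm
    rw [e1]
    exact isUnit_int d₀
  have hUt : (U⁻¹)ᵀ = U⁻¹ := by
    rw [Matrix.transpose_nonsing_inv, hUs.eq]
  obtain ⟨C, hC⟩ : ∃ C, C = A₁ - (q : ℤ_[q]) • (Bz * U⁻¹ * Bzᵀ) := ⟨_, rfl⟩
  have hCs : C.IsSymm := by
    rw [Matrix.IsSymm, hC, Matrix.transpose_sub, Matrix.transpose_smul, Matrix.transpose_mul,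
      Matrix.transpose_mul, Matrix.transpose_transpose, hUt, hA₁s.eq, Matrix.mul_assoc]
  have hCz : PadicInt.toZMod C.det = ((V₁.det : ℤ) : ZMod q) := by
    have e1 : PadicInt.toZMod C.det = (PadicInt.toZMod.mapMatrix C).det :=
      RingHom.map_det _ _
    have e2 : PadicInt.toZMod.mapMatrix C = (Int.castRingHom (ZMod q)).mapMatrix V₁ := by
      ext i j
      have e3 : PadicInt.toZMod (q : ℤ_[q]) = 0 := by
        rw [map_natCast, ZMod.natCast_self]
      rw [RingHom.mapMatrix_apply, Matrix.map_apply, hC, Matrix.sub_apply, Matrix.smul_apply,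
        smul_eq_mul, map_sub, map_mul, e3, zero_mul, sub_zero]
      exact Pool.Agent.W335.BMX.toZMod_int _
    rw [e1, e2, ← RingHom.map_det]
    rfl
  have hCd : IsUnit C.det := by
    rw [unit_iff, hCz, Ne, ZMod.intCast_zmod_eq_zero_iff_dvd]
    exact d₁
  obtain ⟨T₁, v, hT₁, hv, hTv⟩ := Pool.Agent.N507.PQ.diagonalize h2 f C hCs hCd
  obtain ⟨T₀, u, hT₀, hu, hTu⟩ := Pool.Agent.N507.PQ.diagonalize h2 r U hUs hUd
  obtain ⟨P, hP⟩ := schur (q : ℤ_[q]) A₁ C Bz U hUs hUd hC T₁ T₀ v u hTv hTu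
  have hM : (Matrix.fromBlocks ((q : ℤ) • V₁) ((q : ℤ) • B) ((q : ℤ) • Bᵀ) V₀).map
      (Int.castRingHom ℚ_[q]) = (Matrix.fromBlocks ((q : ℤ_[q]) • A₁) ((q : ℤ_[q]) • Bz)
        ((q : ℤ_[q]) • Bzᵀ) U).map (algebraMap ℤ_[q] ℚ_[q]) := by
    ext i j
    rcases i with i | i <;> rcases j with j | j
    · show ((((q : ℤ) * V₁ i j : ℤ)) : ℚ_[q]) =
        ((((q : ℤ_[q]) * (V₁ i j : ℤ_[q])) : ℤ_[q]) : ℚ_[q])
      push_cast
      rfl
    · show ((((q : ℤ) * B i j : ℤ)) : ℚ_[q]) =
        ((((q : ℤ_[q]) * (B i j : ℤ_[q])) : ℤ_[q]) : ℚ_[q])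
      push_cast
      rfl
    · show ((((q : ℤ) * B j i : ℤ)) : ℚ_[q]) =
        ((((q : ℤ_[q]) * (B j i : ℤ_[q])) : ℤ_[q]) : ℚ_[q])
      push_cast
      rfl
    · show ((V₀ i j : ℤ) : ℚ_[q]) = (((V₀ i j : ℤ_[q])) : ℚ_[q])
      push_cast
      rfl
  rw [hM, ← hP]
  set a : Fin f ⊕ Fin r → ℚ_[q] := Sum.elim (fun i => (q : ℚ_[q]) * (v i : ℚ_[q]))
    (fun i => (u i : ℚ_[q])) with ha
  have hmap : (P * Matrix.diagonal (Sum.elim (fun i => (q : ℤ_[q]) * v i) u) * Pᵀ).map
      (algebraMap ℤ_[q] ℚ_[q]) = P.map (algebraMap ℤ_[q] ℚ_[q]) * Matrix.diagonal a *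
        (P.map (algebraMap ℤ_[q] ℚ_[q]))ᵀ := by
    rw [Matrix.map_mul, Matrix.map_mul, Matrix.diagonal_map (map_zero _), Matrix.transpose_map]
    congr 3
    funext i
    rcases i with i | i <;> simp [ha] <;> rfl
  rw [hmap]
  have hq0 : (q : ℚ_[q]) ≠ 0 := by exact_mod_cast hq.out.ne_zero
  have hvne : ∀ i, (v i : ℚ_[q]) ≠ 0 := fun i => by
    rw [Ne, PadicInt.coe_eq_zero]; exact (hv i).ne_zero
  have hune : ∀ i, (u i : ℚ_[q]) ≠ 0 := fun i => by
    rw [Ne, PadicInt.coe_eq_zero]; exact (hu i).ne_zero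
  have hdiag : HV (Matrix.diagonal a)
      (if IsSquare ((((-1) ^ (f / 2) * V₁.det : ℤ)) : ZMod q) then 1 else -1) := by
    refine ⟨f + r, finSumFinEquiv.symm, fun i => a (finSumFinEquiv.symm i), 1, ?_, ?_, ?_⟩
    · intro i
      have h6 : ∀ j, a j ≠ 0 := by
        rintro (j | j)
        · exact mul_ne_zero hq0 (hvne j)
        · exact hune j
      exact h6 _
    · rw [Matrix.one_mul, Matrix.transpose_one, Matrix.mul_one]
      ext i j
      rw [Matrix.submatrix_apply, Matrix.diagonal_apply, Matrix.diagonal_apply]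
      by_cases hij : i = j
      · rw [if_pos hij, if_pos (by rw [hij])]
      · rw [if_neg hij, if_neg (fun h => hij (finSumFinEquiv.symm.injective h))]
    · have e1 : (fun i => a (finSumFinEquiv.symm i)) =
          Fin.append (fun i => (q : ℚ_[q]) * (v i : ℚ_[q])) (fun i => (u i : ℚ_[q])) := by
        funext i
        refine Fin.addCases (fun i => ?_) (fun i => ?_) i
        · rw [finSumFinEquiv_symm_apply_castAdd, Fin.append_left]
          rfl
        · rw [finSumFinEquiv_symm_apply_natAdd, Fin.append_right]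
          rfl
      rw [e1, List.ofFn_fin_append]
      have e2 : List.ofFn (fun i => (q : ℚ_[q]) * (v i : ℚ_[q])) =
          (List.ofFn fun i => (v i : ℚ_[q])).map fun x => (q : ℚ_[q]) * x := by
        rw [List.map_ofFn]
        rfl
      rw [e2]
      have mv : ∀ x ∈ List.ofFn (fun i => (v i : ℚ_[q])), ∃ y : ℤ_[q], IsUnit y ∧
          x = (y : ℚ_[q]) := by
        intro x hx
        rw [List.mem_ofFn] at hx
        obtain ⟨i, rfl⟩ := hx
        exact ⟨v i, hv i, rfl⟩
      have mu : ∀ x ∈ List.ofFn (fun i => (u i : ℚ_[q])), ∃ y : ℤ_[q], IsUnit y ∧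
          x = (y : ℚ_[q]) := by
        intro x hx
        rw [List.mem_ofFn] at hx
        obtain ⟨i, rfl⟩ := hx
        exact ⟨u i, hu i, rfl⟩
      have nz : ∀ y : ℤ_[q], IsUnit y → (y : ℚ_[q]) ≠ 0 := fun y hy => by
        rw [Ne, PadicInt.coe_eq_zero]; exact hy.ne_zero
      have key : ∀ x x' : ℚ_[q], (∃ y : ℤ_[q], IsUnit y ∧ x = (y : ℚ_[q])) →
          (∃ y : ℤ_[q], IsUnit y ∧ x' = (y : ℚ_[q])) → hil ℚ_[q] x x' = 1 := by
        rintro x x' ⟨y, hy, rfl⟩ ⟨y', hy', rfl⟩
        exact hil_units hq2 hy hy'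
      rw [hasse_two2 hsym hq0 _ _
        (fun x hx => by obtain ⟨y, hy, rfl⟩ := mv x hx; exact nz y hy)
        (fun x hx => by obtain ⟨y, hy, rfl⟩ := mu x hx; exact nz y hy)
        (fun x hx x' hx' => key x x' (mv x hx) (mv x' hx'))
        (fun x hx x' hx' => key x x' (mu x hx) (mu x' hx'))
        (fun x hx x' hx' => key x x' (mv x hx) (mu x' hx'))
        (by rwa [List.length_ofFn]), List.length_ofFn]
      rw [List.prod_ofFn]
      have e3 : (-1 : ℚ_[q]) ^ (f / 2) * (∏ i, (v i : ℚ_[q])) =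
          (((-1) ^ (f / 2) * ∏ i, v i : ℤ_[q]) : ℚ_[q]) := by
        have e8 : (∏ i, (v i : ℚ_[q])) = ((∏ i, v i : ℤ_[q]) : ℚ_[q]) :=
          (map_prod (algebraMap ℤ_[q] ℚ_[q]) v Finset.univ).symm
        rw [e8]
        push_cast
        rfl
      have hvu : IsUnit ((-1) ^ (f / 2) * ∏ i, v i) := by
        refine (isUnit_one.neg.pow _).mul ?_
        rw [IsUnit.prod_univ_iff]
        exact hv
      rw [e3, hil_p hq2 hvu]
      have e4 : C.det = T₁.det ^ 2 * ∏ i, v i := by
        rw [← hTv, Matrix.det_mul, Matrix.det_mul, Matrix.det_transpose, Matrix.det_diagonal]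
        ring
      have e5 : PadicInt.toZMod T₁.det ≠ 0 := (unit_iff _).1 hT₁
      have e9 : ((((-1) ^ (f / 2) * V₁.det : ℤ)) : ZMod q) =
          PadicInt.toZMod T₁.det ^ 2 * PadicInt.toZMod ((-1) ^ (f / 2) * ∏ i, v i) := by
        rw [Int.cast_mul, ← hCz, e4, map_mul, map_pow, map_mul, map_pow, map_neg, map_one]
        push_cast
        ring
      have e6 : IsSquare (PadicInt.toZMod ((-1) ^ (f / 2) * ∏ i, v i)) ↔
          IsSquare ((((-1) ^ (f / 2) * V₁.det : ℤ)) : ZMod q) := by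
        rw [e9]
        constructor
        · rintro ⟨z, hz⟩
          exact ⟨PadicInt.toZMod T₁.det * z, by rw [hz]; ring⟩
        · rintro ⟨z, hz⟩
          refine ⟨z / PadicInt.toZMod T₁.det, ?_⟩
          field_simp
          linear_combination hz
      by_cases h5 : IsSquare ((((-1) ^ (f / 2) * V₁.det : ℤ)) : ZMod q)
      · rw [if_pos h5, if_pos (e6.2 h5)]
      · rw [if_neg h5, if_neg (fun h => h5 (e6.1 h))]
  exact hv_cong hdiag (Equiv.refl _) _

end pad

theorem blk : S_BLK := by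
  intro q hq hq2 ι κ _ _ _ _ hev V₁ B V₀ h₁ h₀ d₁ d₀
  set e1 := (Fintype.equivFin ι).symm with he1
  set e2 := (Fintype.equivFin κ).symm with he2
  have h := hv_block' (q := q) hq2 hev (V₁.submatrix e1 e1) (B.submatrix e1 e2)
    (V₀.submatrix e2 e2) (h₁.submatrix _) (h₀.submatrix _)
    (by rwa [Matrix.det_submatrix_equiv_self]) (by rwa [Matrix.det_submatrix_equiv_self])
  rw [Matrix.det_submatrix_equiv_self] at h
  obtain ⟨n, φ, a, T, ha, hT, hε⟩ := h
  refine ⟨n, φ.trans (Equiv.sumCongr e1 e2), a, T, ha, ?_, hε⟩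
  rw [hT]
  ext i j
  rw [Matrix.submatrix_apply, Matrix.submatrix_apply, Matrix.map_apply, Matrix.map_apply,
    Equiv.trans_apply, Equiv.trans_apply]
  congr 1
  rcases φ i with s | s <;> rcases φ j with t | t <;> rfl

end Pool.Agent.Helper82.RC
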