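import Pool.Agent.Helper82.RC.Stm

/-!
# Norms from products of finite fields

helper82.
-/

set_option autoImplicit false
set_option linter.all false
set_option maxHeartbeats 4000000

open Module

namespace Pool.Agent.Helper82.RC

/-- The norm of a product of algebras is the product of the norms. -/
theorem norm_pi' {R : Type} [Field R] {J : Type} [Fintype J] (k : J → Type) [∀ j, Field (k j)]
    [∀ j, Algebra R (k j)] [∀ j, Module.Finite R (k j)] (c : ∀ j, k j) :
    Algebra.norm R c = ∏ j, Algebra.norm R (c j) := by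
  classical
  letI : LinearOrder J := LinearOrder.lift' (Fintype.equivFin J) (Fintype.equivFin J).injective
  set b : ∀ j, Module.Basis (Fin (Module.finrank R (k j))) R (k j) :=
    fun j => Module.finBasis R (k j) with hb
  rw [Algebra.norm_eq_matrix_det (Pi.basis b)]
  have hM : ∀ i s j t, Algebra.leftMulMatrix (Pi.basis b) c ⟨i, s⟩ ⟨j, t⟩ =
      (b i).repr (c i * (Pi.single j (b j t) : ∀ j, k j) i) s := by
    intro i s j t
    rw [Algebra.leftMulMatrix_eq_repr_mul, Pi.basis_apply, Pi.basis_repr]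
    rfl
  have h1 : (Algebra.leftMulMatrix (Pi.basis b) c).BlockTriangular Sigma.fst := by
    rintro ⟨i, s⟩ ⟨j, t⟩ hij
    have hne : i ≠ j := (ne_of_lt hij).symm
    rw [hM, Pi.single_eq_of_ne hne, mul_zero, map_zero]
    rfl
  rw [h1.det_fintype]
  refine Finset.prod_congr rfl fun j _ => ?_
  rw [Algebra.norm_eq_matrix_det (b j)]
  let e : Fin (Module.finrank R (k j)) ≃ {a : Σ j, Fin (Module.finrank R (k j)) // a.1 = j} :=
    { toFun := fun s => ⟨⟨j, s⟩, rfl⟩
      invFun := fun a => a.2 ▸ a.1.2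
      left_inv := fun s => rfl
      right_inv := by
        rintro ⟨⟨i, s⟩, h⟩
        subst h
        rfl }
  rw [← Matrix.det_submatrix_equiv_self e]
  congr 1
  ext s t
  rw [Matrix.submatrix_apply]
  show Algebra.leftMulMatrix (Pi.basis b) c ⟨j, s⟩ ⟨j, t⟩ = _
  rw [hM, Pi.single_eq_same, Algebra.leftMulMatrix_eq_repr_mul]

theorem isSquare_prod {R : Type} [Field R] [Finite R] {J : Type} (s : Finset J)
    (a : J → R) [DecidablePred fun j => ¬ IsSquare (a j)] (h : ∀ j ∈ s, a j ≠ 0)
    (h2 : (2 : R) ≠ 0) :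
    IsSquare (∏ j ∈ s, a j) ↔ Even ((s.filter fun j => ¬ IsSquare (a j)).card) := by
  letI := Fintype.ofFinite R
  letI := Classical.decEq R
  have hF : ringChar R ≠ 2 := by
    intro h3
    have h4 : ((ringChar R : ℕ) : R) = 0 := ringChar.Nat.cast_ringChar
    rw [h3] at h4
    exact h2 (by exact_mod_cast h4)
  have h3 : ∀ x : R, x ≠ 0 → (quadraticChar R x = 1 ↔ IsSquare x) := fun x hx =>
    quadraticChar_one_iff_isSquare hx
  have h4 : ∏ j ∈ s, a j ≠ 0 := Finset.prod_ne_zero_iff.2 h
  rw [← h3 _ h4, map_prod]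
  have h5 : ∀ j ∈ s, quadraticChar R (a j) = if ¬ IsSquare (a j) then -1 else 1 := by
    intro j hj
    by_cases h6 : IsSquare (a j)
    · rw [if_neg (not_not.2 h6), (h3 _ (h j hj)).2 h6]
    · rw [if_pos h6]
      rcases quadraticChar_dichotomy (h j hj) with h7 | h7
      · exact absurd ((h3 _ (h j hj)).1 h7) h6
      · exact h7
  rw [Finset.prod_congr rfl h5, Finset.prod_ite, Finset.prod_const, Finset.prod_const_one, mul_one]
  constructor
  · intro h6
    by_contra h7
    rw [Nat.not_even_iff_odd] at h7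
    rw [h7.neg_one_pow] at h6
    norm_num at h6
  · exact fun h6 => h6.neg_one_pow

theorem nsq : S_NSQ := by
  intro q hq hq2 J _ k _ _ _ c hc
  classical
  have h2 : (2 : ZMod q) ≠ 0 := by
    intro h
    have h3 : ((2 : ℕ) : ZMod q) = 0 := by exact_mod_cast h
    rw [ZMod.natCast_eq_zero_iff] at h3
    exact hq2 ((Nat.prime_dvd_prime_iff_eq hq.out Nat.prime_two).1 h3)
  haveI : ∀ j, Module.Finite (ZMod q) (k j) := fun j => Module.Finite.of_finite
  rw [norm_pi' k c, isSquare_prod Finset.univ _ (fun j _ => by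
    rw [Ne, Algebra.norm_eq_zero_iff]
    exact hc j) h2]
  have e1 : (Finset.univ.filter fun j => ¬ IsSquare (Algebra.norm (ZMod q) (c j))).card =
      Nat.card {j // ¬ IsSquare (c j)} := by
    rw [Nat.card_eq_fintype_card, Fintype.card_subtype]
    congr 1
    ext j
    rw [Finset.mem_filter, Finset.mem_filter, Pool.Agent.N545.PF.norm_sq_iff h2 (c j) (hc j)]
  exact iff_of_eq (congrArg Even e1)

end Pool.Agent.Helper82.RC
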