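import Pool.Agent.Helper82.RC.Rec
import Pool.Agent.Helper82.RC.Blk
import Pool.Agent.Helper82.RC.Nsq

/-!
# A quadratic reciprocity law over number fields: assembly

helper82.
-/

set_option autoImplicit false
set_option linter.all false

open NumberField IsDedekindDomain

namespace Pool.Agent.Helper82.RC

/-- **Quadratic reciprocity** over a number field `F`. Let `d`, `e` be nonzero integers of `F`, `d`
totally positive at the real places, such that at every prime over `W` one of `d`, `e` is a local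
square, the primes outside `W` are odd and unramified, do not divide `d` and divide `e` at most
once. Then the number of the primes outside `W` which divide `e` and modulo which `d` is not a
square is even. -/
theorem reciprocity {F : Type} [Field F] [NumberField F] (d e : 𝓞 F) (hd : d ≠ 0) (he : e ≠ 0)
    (W : ℕ) (hW0 : W ≠ 0) (h2W : 2 ∣ W) (hR : ∀ σ : F →+* ℝ, 0 < σ (d : F))
    (hloc : ∀ w : HeightOneSpectrum (𝓞 F), (W : 𝓞 F) ∈ w.asIdeal →
      IsSquare (algebraMap F (w.adicCompletion F) (d : F)) ∨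
      IsSquare (algebraMap F (w.adicCompletion F) (e : F)))
    (hun : ∀ q : ℕ, q.Prime → ¬ q ∣ W → ∀ 𝔓 : HeightOneSpectrum (𝓞 F),
      (q : 𝓞 F) ∉ 𝔓.asIdeal ^ 2)
    (hdW : ∀ w : HeightOneSpectrum (𝓞 F), (W : 𝓞 F) ∉ w.asIdeal → d ∉ w.asIdeal)
    (heW : ∀ w : HeightOneSpectrum (𝓞 F), (W : 𝓞 F) ∉ w.asIdeal → e ∉ w.asIdeal ^ 2) :
    Even (Nat.card {w : HeightOneSpectrum (𝓞 F) // (W : 𝓞 F) ∉ w.asIdeal ∧ e ∈ w.asIdeal ∧
      ¬ IsSquare (Ideal.Quotient.mk w.asIdeal d)}) :=
  recip blk nsq d e hd he W hW0 h2W hR hloc hun hdW heW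

end Pool.Agent.Helper82.RC
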