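import Pool.Agent.Helper82.RC.Loc

/-!
# Local isometries of the forms `⟨1, -d⟩` and `⟨e, -d e⟩`

helper82.
-/

set_option autoImplicit false
set_option linter.all false
set_option maxHeartbeats 4000000

open Matrix NumberField IsDedekindDomain Module WithZero

namespace Pool.Agent.Helper82.RC

open Pool.Agent.N783.PF (HV Apx Tf)

/-- The form `⟨e, -d e⟩`. -/
noncomputable def Nf {F : Type} [Field F] [NumberField F] (d e : 𝓞 F) :
    Matrix (Fin 2) (Fin 2) F :=
  Matrix.diagonal fun i : Fin 2 => ((![e, -(d * e)] i : 𝓞 F) : F)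

section loc

variable {F : Type} [Field F] [NumberField F]

theorem Nf_symm (d e : 𝓞 F) : (Nf d e).IsSymm := Matrix.isSymm_diagonal _

theorem Nf_00 (d e : 𝓞 F) : Nf d e 0 0 = (e : F) := by
  unfold Nf
  rw [Matrix.diagonal_apply_eq]
  rfl

theorem Nf_11 (d e : 𝓞 F) : Nf d e 1 1 = -((d : F) * (e : F)) := by
  unfold Nf
  rw [Matrix.diagonal_apply_eq]
  show ((-(d * e) : 𝓞 F) : F) = _
  push_cast
  rfl

theorem Nf_01 (d e : 𝓞 F) : Nf d e 0 1 = 0 := by
  unfold Nf
  exact Matrix.diagonal_apply_ne _ (by decide)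

theorem Nf_10 (d e : 𝓞 F) : Nf d e 1 0 = 0 := by
  unfold Nf
  exact Matrix.diagonal_apply_ne _ (by decide)

theorem Nf_det {d e : 𝓞 F} (hd : d ≠ 0) (he : e ≠ 0) : (Nf d e).det ≠ 0 := by
  rw [Matrix.det_fin_two, Nf_00, Nf_11, Nf_01, Nf_10, mul_zero, sub_zero]
  have h1 : (d : F) ≠ 0 := by
    rwa [Ne, RingOfIntegers.coe_eq_zero_iff]
  have h2 : (e : F) ≠ 0 := by
    rwa [Ne, RingOfIntegers.coe_eq_zero_iff]
  exact mul_ne_zero h2 (neg_ne_zero.2 (mul_ne_zero h1 h2))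

variable (w : HeightOneSpectrum (𝓞 F))

theorem dense_lt (y : w.adicCompletion F) :
    ∃ a : F, Valued.v (y - algebraMap F (w.adicCompletion F) a) < 1 := by
  have hd := HeightOneSpectrum.denseRange_algebraMap (K := F) w
  have hn : {z : w.adicCompletion F | Valued.v (z - y) < 1} ∈ nhds y := by
    rw [Valued.mem_nhds]
    refine ⟨1, fun z hz => ?_⟩
    have hz' : (Valued.v (R := w.adicCompletion F)).restrict (z - y) < 1 := hz
    have h1 := (Valuation.restrict_lt_one_iff _).1 hz'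
    exact h1
  obtain ⟨z, hz, ⟨a, rfl⟩⟩ := mem_closure_iff_nhds.1 (hd y) _ hn
  refine ⟨a, ?_⟩
  rw [Valuation.map_sub_swap]
  exact hz

theorem val_alg (x : F) : Valued.v (algebraMap F (w.adicCompletion F) x) = w.valuation F x :=
  HeightOneSpectrum.valuedAdicCompletion_eq_valuation' w x

theorem dense_le (y : w.adicCompletion F) (k : ℕ) :
    ∃ a : F, Valued.v (y - algebraMap F (w.adicCompletion F) a) ≤ exp (-(k : ℤ)) := by
  obtain ⟨π, hπ⟩ := w.valuation_exists_uniformizer F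
  have hπ0 : π ≠ 0 := by
    rintro rfl
    rw [map_zero] at hπ
    exact exp_ne_zero hπ.symm
  have hπk : algebraMap F (w.adicCompletion F) (π ^ k) ≠ 0 := by
    rw [Ne, map_eq_zero]
    exact pow_ne_zero _ hπ0
  obtain ⟨a, ha⟩ := dense_lt w (y / algebraMap F (w.adicCompletion F) (π ^ k))
  refine ⟨a * π ^ k, ?_⟩
  have e1 : y - algebraMap F (w.adicCompletion F) (a * π ^ k) =
      (y / algebraMap F (w.adicCompletion F) (π ^ k) - algebraMap F (w.adicCompletion F) a) *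
        algebraMap F (w.adicCompletion F) (π ^ k) := by
    rw [map_mul, sub_mul, div_mul_cancel₀ _ hπk]
  have e2 : w.valuation F (π ^ k) = exp (-(k : ℤ)) := by
    rw [map_pow, hπ, ← WithZero.exp_nsmul]
    congr 1
    simp
  rw [e1, map_mul, val_alg, e2]
  calc _ ≤ 1 * exp (-(k : ℤ)) := mul_le_mul_left ha.le _
    _ = _ := one_mul _

/-- approximation of the square roots -/
theorem approx_sqrt (c : 𝓞 F) (h : IsSquare (algebraMap F (w.adicCompletion F) (c : F))) (k : ℕ) :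
    ∃ a : F, w.valuation F ((c : F) - a ^ 2) ≤ exp (-(k : ℤ)) := by
  obtain ⟨y, hy⟩ := h
  obtain ⟨a, ha⟩ := dense_le w y k
  refine ⟨a, ?_⟩
  have hv1 : Valued.v y ≤ 1 := by
    have h1 : Valued.v y * Valued.v y ≤ 1 := by
      rw [← map_mul, ← hy, val_alg]
      exact w.valuation_le_one c
    by_contra h2
    push Not at h2
    have h3 : 1 < Valued.v y * Valued.v y := one_lt_mul_of_lt_of_le h2 h2.le
    exact absurd h1 (not_le.2 h3)
  have hk1 : (exp (-(k : ℤ)) : WithZero (Multiplicative ℤ)) ≤ 1 := by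
    rw [← exp_zero, exp_le_exp]
    omega
  set α := algebraMap F (w.adicCompletion F) a with hα
  have hv2 : Valued.v (y + α) ≤ 1 := by
    have e1 : y + α = y + (y - (y - α)) := by ring
    rw [e1]
    refine (Valuation.map_add _ _ _).trans (max_le hv1 ?_)
    exact (Valuation.map_sub _ _ _).trans (max_le hv1 (ha.trans hk1))
  rw [← val_alg, map_sub, map_pow, hy]
  have e1 : y * y - α ^ 2 = (y - α) * (y + α) := by ring
  rw [← hα, e1, map_mul]
  calc Valued.v (y - α) * Valued.v (y + α) ≤ Valued.v (y - α) * 1 := mul_le_mul_right hv2 _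
    _ ≤ _ := by rw [mul_one]; exact ha

/-- `e` is a square at `w` -/
theorem apx_e (d e : 𝓞 F) (h : IsSquare (algebraMap F (w.adicCompletion F) (e : F))) :
    Apx w (Nf d 1) (Nf d e) := by
  intro k
  obtain ⟨a, ha⟩ := approx_sqrt w e h k
  refine ⟨Matrix.diagonal fun _ => a, fun i j => ?_⟩
  have hd1 : w.valuation F (d : F) ≤ 1 := w.valuation_le_one d
  rw [Matrix.diagonal_transpose, Matrix.mul_diagonal, Matrix.diagonal_mul]
  fin_cases i <;> fin_cases j
  · show w.valuation F (a * Nf d 1 0 0 * a - Nf d e 0 0) ≤ _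
    rw [Nf_00, Nf_00]
    have e1 : a * ((1 : 𝓞 F) : F) * a - (e : F) = -((e : F) - a ^ 2) := by
      push_cast
      ring
    rw [e1, Valuation.map_neg]
    exact ha
  · show w.valuation F (a * Nf d 1 0 1 * a - Nf d e 0 1) ≤ _
    rw [Nf_01, Nf_01, mul_zero, zero_mul, sub_zero, map_zero]
    exact zero_le'
  · show w.valuation F (a * Nf d 1 1 0 * a - Nf d e 1 0) ≤ _
    rw [Nf_10, Nf_10, mul_zero, zero_mul, sub_zero, map_zero]
    exact zero_le'
  · show w.valuation F (a * Nf d 1 1 1 * a - Nf d e 1 1) ≤ _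
    rw [Nf_11, Nf_11]
    have e1 : a * -((d : F) * ((1 : 𝓞 F) : F)) * a - -((d : F) * (e : F)) =
        (d : F) * ((e : F) - a ^ 2) := by
      push_cast
      ring
    rw [e1, map_mul]
    calc _ ≤ 1 * w.valuation F ((e : F) - a ^ 2) := mul_le_mul_left hd1 _
      _ ≤ _ := by rw [one_mul]; exact ha

/-- the products of the form -/
theorem tat {R : Type} [Field R] (x y D E1 : R) (A : Matrix (Fin 2) (Fin 2) R)
    (h00 : A 0 0 = 1) (h01 : A 0 1 = 0) (h10 : A 1 0 = 0) (h11 : A 1 1 = -D) :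
    (!![x, y; D * y, x] * A * (!![x, y; D * y, x])ᵀ) 0 0 = x ^ 2 - D * y ^ 2 ∧
    (!![x, y; D * y, x] * A * (!![x, y; D * y, x])ᵀ) 0 1 = 0 ∧
    (!![x, y; D * y, x] * A * (!![x, y; D * y, x])ᵀ) 1 0 = 0 ∧
    (!![x, y; D * y, x] * A * (!![x, y; D * y, x])ᵀ) 1 1 = -(D * (x ^ 2 - D * y ^ 2)) := by
  have hA : A = !![1, 0; 0, -D] := by
    ext i j
    fin_cases i <;> fin_cases j
    · exact h00
    · exact h01
    · exact h10
    · exact h11
  subst hA
  refine ⟨?_, ?_, ?_, ?_⟩ <;>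
  · simp [Matrix.mul_apply, Fin.sum_univ_two]
    try ring

/-- `d` is a square at `w` -/
theorem apx_d (d e : 𝓞 F) (hd : d ≠ 0)
    (h : IsSquare (algebraMap F (w.adicCompletion F) (d : F))) :
    Apx w (Nf d 1) (Nf d e) := by
  intro k
  have hdF : (d : F) ≠ 0 := by rwa [Ne, RingOfIntegers.coe_eq_zero_iff]
  have h4 : ((4 * d : 𝓞 F) : F) ≠ 0 := by
    push_cast
    exact mul_ne_zero (by norm_num) hdF
  have hv4 : w.valuation F ((4 * d : 𝓞 F) : F) ≠ 0 := (Valuation.ne_zero_iff _).2 h4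
  obtain ⟨m, hm⟩ : ∃ m : ℤ, w.valuation F ((4 * d : 𝓞 F) : F) = exp m :=
    ⟨log (w.valuation F ((4 * d : 𝓞 F) : F)), (exp_log hv4).symm⟩
  have hm0 : m ≤ 0 := by
    have h1 : w.valuation F ((4 * d : 𝓞 F) : F) ≤ 1 := w.valuation_le_one _
    rwa [hm, ← exp_zero, exp_le_exp] at h1
  obtain ⟨a, ha⟩ := approx_sqrt w d h (k + m.natAbs + 1)
  have hd1 : w.valuation F (d : F) ≤ 1 := w.valuation_le_one d
  have hd2 : exp m ≤ w.valuation F (d : F) := by
    rw [← hm]
    push_cast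
    rw [map_mul]
    have h41 : w.valuation F ((4 : F)) ≤ 1 := by
      have h5 : w.valuation F (((4 : 𝓞 F)) : F) ≤ 1 := w.valuation_le_one 4
      exact_mod_cast h5
    calc _ ≤ 1 * w.valuation F (d : F) := mul_le_mul_left h41 _
      _ = _ := one_mul _
  have hlt : w.valuation F ((d : F) - a ^ 2) < w.valuation F (d : F) := by
    refine lt_of_le_of_lt ha (lt_of_lt_of_le ?_ hd2)
    rw [exp_lt_exp]
    omega
  have hva : w.valuation F (a ^ 2) = w.valuation F (d : F) := by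
    have e1 : a ^ 2 = (d : F) - ((d : F) - a ^ 2) := by ring
    rw [e1]
    exact Valuation.map_sub_eq_of_lt_left _ hlt
  have ha0 : a ≠ 0 := by
    rintro rfl
    rw [zero_pow two_ne_zero, map_zero] at hva
    exact (Valuation.ne_zero_iff _).2 hdF hva.symm
  set x : F := ((e : F) + 1) / 2 with hx
  set y : F := ((e : F) - 1) / (2 * a) with hy
  have key : w.valuation F (x ^ 2 - (d : F) * y ^ 2 - (e : F)) ≤ exp (-(k : ℤ)) := by
    have e1 : x ^ 2 - (d : F) * y ^ 2 - (e : F) =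
        -(((e : F) - 1) ^ 2 * ((d : F) - a ^ 2) / (4 * a ^ 2)) := by
      rw [hx, hy]
      field_simp
      ring
    rw [e1, Valuation.map_neg, map_div₀, map_mul, map_pow]
    have e2 : w.valuation F (4 * a ^ 2) = exp m := by
      have e5 : ((4 * d : 𝓞 F) : F) = 4 * (d : F) := by
        have h7 := map_mul (algebraMap (𝓞 F) F) 4 d
        rw [map_ofNat] at h7
        exact h7
      rw [← hm, map_mul, hva, e5, map_mul]
    have he1 : w.valuation F ((e : F) - 1) ≤ 1 := by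
      have h5 : w.valuation F (((e - 1 : 𝓞 F)) : F) ≤ 1 := w.valuation_le_one _
      have e3 : (((e - 1 : 𝓞 F)) : F) = (e : F) - 1 := by push_cast; ring
      rwa [e3] at h5
    rw [e2]
    have h6 : w.valuation F ((e : F) - 1) ^ 2 * w.valuation F ((d : F) - a ^ 2) ≤
        exp (-((k + m.natAbs + 1 : ℕ) : ℤ)) := by
      calc _ ≤ 1 * w.valuation F ((d : F) - a ^ 2) :=
            mul_le_mul_left (pow_le_one' he1 2) _
        _ ≤ _ := by rw [one_mul]; exact ha
    rw [div_le_iff₀ (exp_pos)]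
    refine h6.trans ?_
    rw [← exp_add, exp_le_exp]
    omega
  obtain ⟨t1, t2, t3, t4⟩ := tat x y (d : F) 0 (Nf d 1) (by rw [Nf_00]; push_cast; rfl)
    (Nf_01 _ _) (Nf_10 _ _) (by rw [Nf_11]; push_cast; ring)
  refine ⟨!![x, y; (d : F) * y, x], fun i j => ?_⟩
  fin_cases i <;> fin_cases j
  · show w.valuation F ((!![x, y; (d : F) * y, x] * Nf d 1 * (!![x, y; (d : F) * y, x])ᵀ) 0 0 -
      Nf d e 0 0) ≤ _
    rw [t1, Nf_00]
    exact key
  · show w.valuation F ((!![x, y; (d : F) * y, x] * Nf d 1 * (!![x, y; (d : F) * y, x])ᵀ) 0 1 -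
      Nf d e 0 1) ≤ _
    rw [t2, Nf_01, sub_zero, map_zero]
    exact zero_le'
  · show w.valuation F ((!![x, y; (d : F) * y, x] * Nf d 1 * (!![x, y; (d : F) * y, x])ᵀ) 1 0 -
      Nf d e 1 0) ≤ _
    rw [t3, Nf_10, sub_zero, map_zero]
    exact zero_le'
  · show w.valuation F ((!![x, y; (d : F) * y, x] * Nf d 1 * (!![x, y; (d : F) * y, x])ᵀ) 1 1 -
      Nf d e 1 1) ≤ _
    rw [t4, Nf_11]
    have e1 : -((d : F) * (x ^ 2 - (d : F) * y ^ 2)) - -((d : F) * (e : F)) =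
        -((d : F) * (x ^ 2 - (d : F) * y ^ 2 - (e : F))) := by ring
    rw [e1, Valuation.map_neg, map_mul]
    calc _ ≤ 1 * w.valuation F (x ^ 2 - (d : F) * y ^ 2 - (e : F)) := mul_le_mul_left hd1 _
      _ ≤ _ := by rw [one_mul]; exact key

/-- real places -/
theorem real_iso (d e : 𝓞 F) (σ : F →+* ℝ) (h : 0 < σ (d : F)) :
    ∃ T : Matrix (Fin 2) (Fin 2) ℝ, T * (Nf d 1).map σ * Tᵀ = (Nf d e).map σ := by
  obtain ⟨s, hs0, hs⟩ : ∃ s : ℝ, s ≠ 0 ∧ s ^ 2 = σ (d : F) :=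
    ⟨Real.sqrt (σ (d : F)), (Real.sqrt_pos.2 h).ne', Real.sq_sqrt h.le⟩
  set x : ℝ := (σ (e : F) + 1) / 2 with hx
  set y : ℝ := (σ (e : F) - 1) / (2 * s) with hy
  have key : x ^ 2 - σ (d : F) * y ^ 2 = σ (e : F) := by
    rw [hx, hy, ← hs]
    field_simp
    ring
  obtain ⟨t1, t2, t3, t4⟩ := tat x y (σ (d : F)) 0 ((Nf d 1).map σ)
    (by rw [Matrix.map_apply, Nf_00]; push_cast; exact map_one σ)
    (by rw [Matrix.map_apply, Nf_01]; exact map_zero σ)
    (by rw [Matrix.map_apply, Nf_10]; exact map_zero σ)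
    (by
      rw [Matrix.map_apply, Nf_11]
      push_cast
      rw [mul_one, map_neg])
  refine ⟨!![x, y; σ (d : F) * y, x], ?_⟩
  ext i j
  fin_cases i <;> fin_cases j
  · show (!![x, y; σ (d : F) * y, x] * (Nf d 1).map σ * (!![x, y; σ (d : F) * y, x])ᵀ) 0 0 =
      σ (Nf d e 0 0)
    rw [t1, Nf_00, key]
  · show (!![x, y; σ (d : F) * y, x] * (Nf d 1).map σ * (!![x, y; σ (d : F) * y, x])ᵀ) 0 1 =
      σ (Nf d e 0 1)
    rw [t2, Nf_01, map_zero]
  · show (!![x, y; σ (d : F) * y, x] * (Nf d 1).map σ * (!![x, y; σ (d : F) * y, x])ᵀ) 1 0 =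
      σ (Nf d e 1 0)
    rw [t3, Nf_10, map_zero]
  · show (!![x, y; σ (d : F) * y, x] * (Nf d 1).map σ * (!![x, y; σ (d : F) * y, x])ᵀ) 1 1 =
      σ (Nf d e 1 1)
    rw [t4, Nf_11, key, map_neg, map_mul]

end loc

end Pool.Agent.Helper82.RC
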