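import Pool.Agent.Helper82.RC.Res

/-!
# The Hasse invariant at an unramified prime of the transfer of `⟨e, -d e⟩`

helper82, after the library module N545/PF/TFQ (helper545).
-/

set_option autoImplicit false
set_option linter.all false
set_option maxHeartbeats 4000000

open Matrix NumberField IsDedekindDomain Module

namespace Pool.Agent.Helper82.RC

open Pool.Agent.N545.PF (Spl QB exists_bas nondeg trace_dvd coprime_mod det_V0)
open Pool.Agent.N783.PF (HV Apx Tf)
open Pool.Agent.N644.PQ.HunC (finite_over)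

/-- The primes over `q` which divide `e`. -/
abbrev Jq {L : Type} [Field L] [NumberField L] (q : ℕ) (e : 𝓞 L) : Type :=
  {𝔓 : HeightOneSpectrum (𝓞 L) // (q : 𝓞 L) ∈ 𝔓.asIdeal ∧ e ∈ 𝔓.asIdeal}

theorem finite_Jq {L : Type} [Field L] [NumberField L] {q : ℕ} (hq : q ≠ 0) (e : 𝓞 L) :
    Finite (Jq q e) := by
  have h1 := finite_over (O := 𝓞 L) (q : 𝓞 L) (by exact_mod_cast hq)
  have h2 : {𝔓 : HeightOneSpectrum (𝓞 L) | (q : 𝓞 L) ∈ 𝔓.asIdeal ∧ e ∈ 𝔓.asIdeal}.Finite :=
    h1.subset fun _ h => h.1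
  exact h2.to_subtype

theorem HV_reindex {E : Type} [Field E] {ι κ : Type} [Fintype ι] [Fintype κ] {M : Matrix κ κ E}
    {ε : ℤ} (h : HV M ε) (e : ι ≃ κ) : HV (M.submatrix e e) ε := by
  obtain ⟨n, φ, a, T, ha, hT, hε⟩ := h
  refine ⟨n, φ.trans e.symm, a, T, ha, ?_, hε⟩
  rw [hT]
  ext i j
  simp

section local_

variable {L : Type} [Field L] [NumberField L] {q : ℕ}

/-- The complementary ideal. -/
theorem exists_spl' (hq : q.Prime)
    (hun : ∀ 𝔓 : HeightOneSpectrum (𝓞 L), (q : 𝓞 L) ∉ 𝔓.asIdeal ^ 2) (e : 𝓞 L) :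
    ∃ (J : Ideal (𝓞 L)) (e' : 𝓞 L),
      Spl q (⨅ 𝔓 : Jq q e, 𝔓.1.asIdeal) J e' := by
  haveI := finite_Jq (L := L) hq.ne_zero e
  haveI := Fintype.ofFinite (Jq (L := L) q e)
  set Q : Ideal (𝓞 L) := ⨅ 𝔓 : Jq q e, 𝔓.1.asIdeal with hQ
  have hqQ : (q : 𝓞 L) ∈ Q := by
    rw [hQ, Ideal.mem_iInf]
    exact fun 𝔓 => 𝔓.2.1
  obtain ⟨J, hJ⟩ := Ideal.dvd_iff_le.2 ((Ideal.span_singleton_le_iff_mem Q).2 hqQ)
  have htop : Q ⊔ J = ⊤ := by
    by_contra hne
    obtain ⟨P, hP, hle⟩ := Ideal.exists_le_maximal _ hne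
    have h1 : Q ≤ P := le_sup_left.trans hle
    have h2 : J ≤ P := le_sup_right.trans hle
    have h3 : ∃ 𝔓 : Jq q e, 𝔓.1.asIdeal ≤ P := by
      rw [hQ, ← Finset.inf_univ_eq_iInf] at h1
      obtain ⟨𝔓, -, h𝔓⟩ := (hP.isPrime.inf_le').1 h1
      exact ⟨𝔓, h𝔓⟩
    obtain ⟨𝔓, h𝔓⟩ := h3
    have h4 : 𝔓.1.asIdeal = P := 𝔓.1.isMaximal.eq_of_le hP.ne_top h𝔓
    apply hun 𝔓.1
    rw [sq]
    have h5 : (q : 𝓞 L) ∈ Q * J := by
      rw [← hJ]
      exact Ideal.mem_span_singleton_self _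
    refine Ideal.mul_mono ?_ ?_ h5
    · exact iInf_le _ 𝔓
    · rw [h4]
      exact h2
  have h1 : (1 : 𝓞 L) ∈ Q ⊔ J := by rw [htop]; trivial
  obtain ⟨a, ha, b, hb, hab⟩ := Submodule.mem_sup.1 h1
  refine ⟨J, b, hJ, hb, ?_⟩
  have e1 : 1 - b = a := by rw [← hab]; ring
  rw [e1]
  exact ha

/-- Transfer to the basis of the field. -/
theorem hv_tf [Fact q.Prime] {f r : ℕ} {w : Fin f ⊕ Fin r → 𝓞 L}
    (B : Module.Basis (Fin f ⊕ Fin r) ℚ L) (hB : ∀ i, B i = (w i : L)) (zz : Fin 2 → 𝓞 L) {ε : ℤ}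
    (hG : HV ((Matrix.of fun (p p' : Fin 2 × (Fin f ⊕ Fin r)) =>
      if p.1 = p'.1 then Algebra.trace ℤ (𝓞 L) (zz p.1 * w p.2 * w p'.2) else 0).map
      (Int.castRingHom ℚ_[q])) ε) :
    HV ((Tf (Matrix.diagonal fun k => ((zz k : 𝓞 L) : L))).map (Rat.castHom ℚ_[q])) ε := by
  set G : Matrix (Fin 2 × (Fin f ⊕ Fin r)) (Fin 2 × (Fin f ⊕ Fin r)) ℤ :=
    Matrix.of fun (p p' : Fin 2 × (Fin f ⊕ Fin r)) =>
      if p.1 = p'.1 then Algebra.trace ℤ (𝓞 L) (zz p.1 * w p.2 * w p'.2) else 0 with hGd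
  set b := Module.finBasis ℚ L with hb
  set T : Matrix (Fin 2 × Fin (Module.finrank ℚ L)) (Fin 2 × (Fin f ⊕ Fin r)) ℚ :=
    Matrix.of fun a p => if a.1 = p.1 then B.repr (b a.2) p.2 else 0 with hT
  have h1 : Tf (Matrix.diagonal fun k => ((zz k : 𝓞 L) : L)) =
      T * G.map (Int.castRingHom ℚ) * Tᵀ := by
    ext ⟨i, k⟩ ⟨j, l⟩
    rw [Matrix.mul_apply]
    have e0 : ∀ p' : Fin 2 × (Fin f ⊕ Fin r), (T * G.map (Int.castRingHom ℚ)) (i, k) p' =
        if i = p'.1 then ∑ s, B.repr (b k) s *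
          ((Algebra.trace ℤ (𝓞 L) (zz i * w s * w p'.2) : ℤ) : ℚ) else 0 := by
      intro p'
      rw [Matrix.mul_apply, Fintype.sum_prod_type]
      have e1 : ∀ i' : Fin 2, (∑ s, T (i, k) (i', s) * (G.map (Int.castRingHom ℚ)) (i', s) p') =
          if i = i' then (∑ s, B.repr (b k) s * (G.map (Int.castRingHom ℚ)) (i, s) p') else 0 := by
        intro i'
        by_cases h : i = i'
        · subst h
          rw [if_pos rfl]
          refine Finset.sum_congr rfl fun s _ => ?_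
          rw [hT, Matrix.of_apply, if_pos rfl]
        · rw [if_neg h]
          refine Finset.sum_eq_zero fun s _ => ?_
          rw [hT, Matrix.of_apply, if_neg h, zero_mul]
      rw [Finset.sum_congr rfl fun i' _ => e1 i', Finset.sum_ite_eq, if_pos (Finset.mem_univ _)]
      by_cases h : i = p'.1
      · rw [if_pos h]
        refine Finset.sum_congr rfl fun s _ => ?_
        rw [Matrix.map_apply, hGd, Matrix.of_apply, if_pos h]
        rfl
      · rw [if_neg h]
        refine Finset.sum_eq_zero fun s _ => ?_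
        rw [Matrix.map_apply, hGd, Matrix.of_apply, if_neg h, map_zero, mul_zero]
    rw [Fintype.sum_prod_type]
    have e2 : ∀ j' : Fin 2, (∑ t, (T * G.map (Int.castRingHom ℚ)) (i, k) (j', t) *
        Tᵀ (j', t) (j, l)) = if j = j' then (if i = j then ∑ t, (∑ s, B.repr (b k) s *
          ((Algebra.trace ℤ (𝓞 L) (zz i * w s * w t) : ℤ) : ℚ)) * B.repr (b l) t else 0)
          else 0 := by
      intro j'
      by_cases h : j = j'
      · subst h
        rw [if_pos rfl]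
        by_cases h' : i = j
        · rw [if_pos h']
          refine Finset.sum_congr rfl fun t _ => ?_
          rw [e0, if_pos h', Matrix.transpose_apply, hT, Matrix.of_apply, if_pos rfl]
        · rw [if_neg h']
          refine Finset.sum_eq_zero fun t _ => ?_
          rw [e0, if_neg h', zero_mul]
      · rw [if_neg h]
        refine Finset.sum_eq_zero fun t _ => ?_
        rw [Matrix.transpose_apply, hT, Matrix.of_apply, if_neg h, mul_zero]
    rw [Finset.sum_congr rfl fun j' _ => e2 j', Finset.sum_ite_eq, if_pos (Finset.mem_univ _)]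
    unfold Tf
    rw [Matrix.of_apply, Matrix.diagonal_apply]
    by_cases h' : i = j
    · rw [if_pos h', if_pos h']
      have e3 : b k * b l * ((zz i : 𝓞 L) : L) =
          ∑ t, B.repr (b l) t • ∑ s, B.repr (b k) s • ((zz i * w s * w t : 𝓞 L) : L) := by
        have e4 : b k * b l * ((zz i : 𝓞 L) : L) = ((zz i : 𝓞 L) : L) * (b k) * (b l) := by ring
        rw [e4]
        conv_lhs => rw [← B.sum_repr (b l)]
        rw [Finset.mul_sum]
        refine Finset.sum_congr rfl fun t _ => ?_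
        rw [mul_smul_comm]
        congr 1
        conv_lhs => rw [← B.sum_repr (b k)]
        rw [Finset.mul_sum, Finset.sum_mul]
        refine Finset.sum_congr rfl fun s _ => ?_
        rw [mul_smul_comm, smul_mul_assoc, hB, hB]
        rfl
      show Algebra.trace ℚ L (b k * b l * ((zz i : 𝓞 L) : L)) = _
      rw [e3, map_sum]
      refine Finset.sum_congr rfl fun t _ => ?_
      rw [map_smul, map_sum, smul_eq_mul, mul_comm]
      congr 1
      refine Finset.sum_congr rfl fun s _ => ?_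
      rw [map_smul, smul_eq_mul, ← Algebra.coe_trace_int]
    · rw [if_neg h', if_neg h', mul_zero, map_zero]
  have h2 : (T * G.map (Int.castRingHom ℚ) * Tᵀ).map (Rat.castHom ℚ_[q]) =
      T.map (Rat.castHom ℚ_[q]) * G.map (Int.castRingHom ℚ_[q]) *
        (T.map (Rat.castHom ℚ_[q]))ᵀ := by
    rw [Matrix.map_mul, Matrix.map_mul, Matrix.transpose_map]
    congr 2
  rw [h1, h2]
  exact Pool.Agent.N545.PF.hv_cong hG ((Equiv.refl _).prodCongr (b.indexEquiv B)) _

end local_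

end Pool.Agent.Helper82.RC
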