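import Pool.Agent.Helper82.RC.Gram

/-!
# The Hasse invariant at an unramified prime of the transfer of `⟨e, -d e⟩`: main computation

helper82, after the library module N545/PF/TFQ (helper545).
-/

set_option autoImplicit false
set_option linter.all false
set_option maxHeartbeats 4000000

open Matrix NumberField IsDedekindDomain Module

namespace Pool.Agent.Helper82.RC

open Pool.Agent.N545.PF (Spl QB exists_bas nondeg trace_dvd coprime_mod det_V0)
open Pool.Agent.N783.PF (HV Apx Tf)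
open Pool.Agent.N644.PQ.HunC (finite_over)

section local_

variable {L : Type} [Field L] [NumberField L] {q : ℕ}

theorem surj_pi {e : 𝓞 L} {k : Jq q e → Type} [∀ j, Field (k j)] [Finite (Jq q e)]
    (ψ : ∀ j, 𝓞 L →+* k j)
    (hψ : ∀ j, Function.Surjective (ψ j)) (hk : ∀ j a, ψ j a = 0 ↔ a ∈ j.1.asIdeal) :
    Function.Surjective (RingHom.pi ψ) := by
  intro x
  choose a ha using fun j => hψ j (x j)
  have hI : Pairwise fun i j : Jq q e => IsCoprime i.1.asIdeal j.1.asIdeal := by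
    intro i j hij
    rw [Ideal.isCoprime_iff_sup_eq]
    refine Ideal.IsMaximal.coprime_of_ne i.1.isMaximal j.1.isMaximal ?_
    intro h
    apply hij
    apply Subtype.ext
    exact HeightOneSpectrum.ext h
  obtain ⟨r, hr⟩ := Ideal.pi_quotient_surjective hI (fun j => Ideal.Quotient.mk _ (a j))
  refine ⟨r, ?_⟩
  funext j
  have h1 := hr j
  have h2 : r - a j ∈ j.1.asIdeal := by
    rw [← Ideal.Quotient.eq_zero_iff_mem, map_sub, sub_eq_zero]
    exact h1
  have h3 := (hk j _).2 h2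
  rw [map_sub, sub_eq_zero] at h3
  show ψ j r = x j
  rw [h3, ha]

open scoped Classical in
theorem local_hv0 (blk : S_BLK) (nsq : S_NSQ) [hq : Fact q.Prime] (hq2 : q ≠ 2)
    (hun : ∀ 𝔓 : HeightOneSpectrum (𝓞 L), (q : 𝓞 L) ∉ 𝔓.asIdeal ^ 2) (e d : 𝓞 L)
    (he : ∀ 𝔓 : HeightOneSpectrum (𝓞 L), (q : 𝓞 L) ∈ 𝔓.asIdeal → e ∉ 𝔓.asIdeal ^ 2)
    (hd : ∀ 𝔓 : HeightOneSpectrum (𝓞 L), (q : 𝓞 L) ∈ 𝔓.asIdeal → d ∉ 𝔓.asIdeal)
    (k : Jq q e → Type) [∀ j, Field (k j)] [∀ j, Finite (k j)] [∀ j, Algebra (ZMod q) (k j)]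
    (ψ : ∀ j, 𝓞 L →+* k j)
    (hψ : ∀ j, Function.Surjective (ψ j)) (hk : ∀ j a, ψ j a = 0 ↔ a ∈ j.1.asIdeal) :
    HV ((Tf (Matrix.diagonal fun i : Fin 2 => ((![e, -(d * e)] i : 𝓞 L) : L))).map
      (Rat.castHom ℚ_[q]))
      (if Even (Nat.card {j : Jq q e // ¬ IsSquare (ψ j d)}) then 1 else -1) := by
  haveI := finite_Jq (L := L) hq.out.ne_zero e
  letI := Fintype.ofFinite (Jq (L := L) q e)
  have hqL : (q : 𝓞 L) ≠ 0 := by exact_mod_cast hq.out.ne_zero
  obtain ⟨Jc, e', hspl⟩ := exists_spl' (L := L) hq.out hun e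
  set Q : Ideal (𝓞 L) := ⨅ 𝔓 : Jq q e, 𝔓.1.asIdeal with hQ
  set φ : 𝓞 L →+* (∀ j, k j) := RingHom.pi ψ with hφd
  have hφ : Function.Surjective φ := surj_pi ψ hψ hk
  have hkφ : ∀ a, φ a = 0 ↔ a ∈ Q := by
    intro a
    rw [hQ, Ideal.mem_iInf, funext_iff]
    exact forall_congr' fun j => hk j a
  haveI : Module.Finite (ZMod q) (∀ j, k j) := Module.Finite.of_finite
  obtain ⟨f, ⟨b⟩⟩ : ∃ f : ℕ, Nonempty (Module.Basis (Fin f) (ZMod q) (∀ j, k j)) :=
    ⟨_, ⟨Module.finBasis (ZMod q) (∀ j, k j)⟩⟩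
  obtain ⟨r, x, y, hx, hxb, hy, hw⟩ := exists_qb' hspl φ hφ hkφ b
  have hzQ : e ∈ Q := by
    rw [hQ, Ideal.mem_iInf]
    exact fun j => j.2.2
  obtain ⟨u, hu⟩ := Ideal.mem_span_singleton.1 (hspl.prod hzQ hspl.mem)
  choose v hv' using fun i => Ideal.mem_span_singleton.1 (hspl.prod hzQ (hx i))
  have hφe : φ e' = 1 := by
    have h1 := (hkφ _).2 hspl.one
    rw [map_sub, map_one, sub_eq_zero] at h1
    exact h1.symm
  have hφv : ∀ i, φ (v i) = φ u * b i := by
    intro i
    have e1 : v i * e' = u * x i := by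
      have e2 : (q : 𝓞 L) * (v i * e') = (q : 𝓞 L) * (u * x i) := by
        calc (q : 𝓞 L) * (v i * e') = (e * x i) * e' := by rw [hv']; ring
          _ = (e * e') * x i := by ring
          _ = _ := by rw [hu]; ring
      exact mul_left_cancel₀ hqL e2
    have e3 := congrArg φ e1
    rwa [map_mul, map_mul, hφe, mul_one, hxb] at e3
  have huP : ∀ j : Jq q e, u ∉ j.1.asIdeal := by
    intro j hmem
    apply he j.1 j.2.1
    have e1 : (q : 𝓞 L) * u + e * (1 - e') = e := by rw [← hu]; ring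
    have h1 := hspl.one
    rw [hQ, Ideal.mem_iInf] at h1
    have h2 : (q : 𝓞 L) * u + e * (1 - e') ∈ j.1.asIdeal ^ 2 := by
      rw [sq]
      exact Ideal.add_mem _ (Ideal.mul_mem_mul j.2.1 hmem) (Ideal.mul_mem_mul j.2.2 (h1 j))
    exact Eq.subst (motive := fun z => z ∈ j.1.asIdeal ^ 2) e1 h2
  have huu : IsUnit (φ u) := by
    rw [Pi.isUnit_iff]
    intro j
    rw [isUnit_iff_ne_zero]
    intro h
    exact huP j ((hk j u).1 h)
  have hφd' : IsUnit (φ d) := by
    rw [Pi.isUnit_iff]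
    intro j
    rw [isUnit_iff_ne_zero]
    intro h
    exact hd j.1 j.2.1 ((hk j d).1 h)
  set zz : Fin 2 → 𝓞 L := ![e, -(d * e)] with hzz
  set vv : Fin 2 → Fin f → 𝓞 L := ![v, fun i => -(d * v i)] with hvv
  set uu : Fin 2 → 𝓞 L := ![u, -(d * u)] with huu'
  have hzv : ∀ t i, zz t * x i = q * vv t i := by
    intro t i
    fin_cases t
    · exact hv' i
    · show -(d * e) * x i = q * -(d * v i)
      linear_combination (-d) * hv' i
  have hφvv : ∀ t i, φ (vv t i) = φ (uu t) * b i := by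
    intro t i
    fin_cases t
    · exact hφv i
    · show φ (-(d * v i)) = φ (-(d * u)) * b i
      rw [map_neg, map_neg, map_mul, map_mul, hφv]
      ring
  have huuu : ∀ t, IsUnit (φ (uu t)) := by
    intro t
    fin_cases t
    · exact huu
    · show IsUnit (φ (-(d * u)))
      rw [map_neg, map_mul]
      exact (hφd'.mul huu).neg
  have hcop : ∀ t, ∃ z', 1 - zz t * z' ∈ Jc := by
    intro t
    refine coprime_mod (J := Jc) ?_ (zz t) ?_
    · rintro rfl
      have h1 := hspl.right (Ideal.mem_span_singleton_self (q : 𝓞 L))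
      exact hqL (Ideal.mem_bot.1 h1)
    · intro 𝔓 hle hmem
      have hq𝔓 : (q : 𝓞 L) ∈ 𝔓.asIdeal :=
        hle (hspl.right (Ideal.mem_span_singleton_self (q : 𝓞 L)))
      have he𝔓 : e ∈ 𝔓.asIdeal := by
        fin_cases t
        · exact hmem
        · have h2 : -(d * e) ∈ 𝔓.asIdeal := hmem
          rw [neg_mem_iff] at h2
          exact (𝔓.isPrime.mem_or_mem h2).resolve_left (hd 𝔓 hq𝔓)
      apply 𝔓.isPrime.ne_top
      rw [Ideal.eq_top_iff_one]
      have e1 : (1 : 𝓞 L) = (1 - e') + e' := by ring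
      rw [e1]
      refine Ideal.add_mem _ ?_ (hle hspl.mem)
      have h1 := hspl.one
      rw [hQ, Ideal.mem_iInf] at h1
      exact h1 ⟨𝔓, hq𝔓, he𝔓⟩
  have htr : ∀ a : 𝓞 L, Algebra.trace ℤ (𝓞 L) ((q : 𝓞 L) * a) =
      (q : ℤ) * Algebra.trace ℤ (𝓞 L) a := by
    intro a
    have e1 : (q : 𝓞 L) * a = (q : ℤ) • a := by
      rw [zsmul_eq_mul]
      push_cast
      rfl
    rw [e1, map_smul, smul_eq_mul]
  have hqZ : (q : ℤ) ≠ 0 := by exact_mod_cast hq.out.ne_zero
  obtain ⟨V₁, hV₁⟩ : ∃ V₁ : Fin 2 → Matrix (Fin f) (Fin f) ℤ, ∀ t, V₁ t =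
    Matrix.of fun i j => Algebra.trace ℤ (𝓞 L) (vv t i * x j) := ⟨_, fun _ => rfl⟩
  obtain ⟨Bm, hBm⟩ : ∃ Bm : Fin 2 → Matrix (Fin f) (Fin r) ℤ, ∀ t, Bm t =
    Matrix.of fun i j => Algebra.trace ℤ (𝓞 L) (vv t i * y j) := ⟨_, fun _ => rfl⟩
  obtain ⟨V₀, hV₀⟩ : ∃ V₀ : Fin 2 → Matrix (Fin r) (Fin r) ℤ, ∀ t, V₀ t =
    Matrix.of fun i j => Algebra.trace ℤ (𝓞 L) (zz t * y i * y j) := ⟨_, fun _ => rfl⟩
  have c11 : ∀ t i j, (q : ℤ) * V₁ t i j = Algebra.trace ℤ (𝓞 L) (zz t * x i * x j) := by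
    intro t i j
    rw [hV₁, Matrix.of_apply, ← htr, hzv]
    congr 1
    ring
  have c12 : ∀ t i j, (q : ℤ) * Bm t i j = Algebra.trace ℤ (𝓞 L) (zz t * x i * y j) := by
    intro t i j
    rw [hBm, Matrix.of_apply, ← htr, hzv]
    congr 1
    ring
  have hV₁s : ∀ t, (V₁ t).IsSymm := by
    intro t
    ext i j
    rw [Matrix.transpose_apply]
    apply mul_left_cancel₀ hqZ
    rw [c11, c11, mul_right_comm]
  have hV₀s : ∀ t, (V₀ t).IsSymm := by
    intro t
    ext i j
    rw [Matrix.transpose_apply, hV₀, Matrix.of_apply, Matrix.of_apply, mul_right_comm]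
  have hd₁ : ∀ t, ¬ (q : ℤ) ∣ (V₁ t).det := by
    intro t
    rw [hV₁]
    exact det_V1 (q := q) hun hspl φ hkφ b hx hxb hy hw (vv t) (huuu t) (hφvv t)
  have hd₀ : ∀ t, ¬ (q : ℤ) ∣ (V₀ t).det := by
    intro t
    obtain ⟨z', hz'⟩ := hcop t
    rw [hV₀]
    exact det_V0 (q := q) hun hspl hx hy hw (zz t) z' hz'
  have hdet : ∀ t, (((V₁ t).det : ℤ) : ZMod q) =
      (Matrix.of fun i j => Algebra.trace (ZMod q) (∀ j, k j) (φ (uu t) * b i * b j)).det := by
    intro t
    have e1 := (Int.castRingHom (ZMod q)).map_det (V₁ t)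
    have e2 : (((V₁ t).det : ℤ) : ZMod q) = Int.castRingHom (ZMod q) (V₁ t).det := rfl
    rw [e2, e1]
    congr 1
    ext i j
    rw [RingHom.mapMatrix_apply, Matrix.map_apply, Matrix.of_apply, hV₁, Matrix.of_apply]
    have e3 := trace_res' hspl φ hkφ b hxb hy hw (a := vv t i * x j) (Jc.mul_mem_left _ (hx j))
    rw [map_mul φ, hφvv, hxb] at e3
    exact e3
  have hnorm : ∀ c w : (∀ j, k j),
      (Matrix.of fun i j => Algebra.trace (ZMod q) (∀ j, k j) (c * w * b i * b j)).det =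
      (Matrix.of fun i j => Algebra.trace (ZMod q) (∀ j, k j) (w * b i * b j)).det *
        Algebra.norm (ZMod q) c := by
    intro c w
    rw [Algebra.norm_eq_matrix_det b, ← Matrix.det_mul]
    congr 1
    ext i j
    rw [Matrix.mul_apply, Matrix.of_apply]
    have e1 : c * w * b i * b j = ∑ l, (Algebra.leftMulMatrix b c) l j • (w * b i * b l) := by
      have e2 : c * b j = ∑ l, (Algebra.leftMulMatrix b c) l j • b l := by
        conv_lhs => rw [← b.sum_repr (c * b j)]
        refine Finset.sum_congr rfl fun l _ => ?_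
        rw [Algebra.leftMulMatrix_eq_repr_mul]
      have e3 : c * w * b i * b j = (w * b i) * (c * b j) := by ring
      rw [e3, e2, Finset.mul_sum]
      refine Finset.sum_congr rfl fun l _ => ?_
      rw [mul_smul_comm]
    rw [e1, map_sum]
    refine Finset.sum_congr rfl fun l _ => ?_
    rw [map_smul, Matrix.of_apply, smul_eq_mul, mul_comm]
  have hcard : Fintype.card (Fin f × Fin 2) = f * 2 := by
    rw [Fintype.card_prod, Fintype.card_fin, Fintype.card_fin]
  have hblock := blk q hq2 (Fin f × Fin 2) (Fin r × Fin 2) (by rw [hcard]; exact even_two.mul_left f)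
    (Matrix.blockDiagonal V₁) (Matrix.blockDiagonal Bm) (Matrix.blockDiagonal V₀)
    (by
      rw [Matrix.IsSymm, Matrix.blockDiagonal_transpose]
      congr 1
      funext t
      exact hV₁s t)
    (by
      rw [Matrix.IsSymm, Matrix.blockDiagonal_transpose]
      congr 1
      funext t
      exact hV₀s t)
    (by
      rw [Matrix.det_blockDiagonal]
      intro h
      obtain ⟨t, -, ht⟩ := (Nat.prime_iff_prime_int.1 hq.out).exists_mem_finset_dvd h
      exact hd₁ t ht)
    (by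
      rw [Matrix.det_blockDiagonal]
      intro h
      obtain ⟨t, -, ht⟩ := (Nat.prime_iff_prime_int.1 hq.out).exists_mem_finset_dvd h
      exact hd₀ t ht)
  have hval : IsSquare ((((-1) ^ (Fintype.card (Fin f × Fin 2) / 2) *
      (Matrix.blockDiagonal V₁).det : ℤ)) : ZMod q) ↔
      Even (Nat.card {j : Jq q e // ¬ IsSquare (ψ j d)}) := by
    have hns := nsq q hq2 (Jq q e) k (φ d) (fun j h => hd j.1 j.2.1 ((hk j d).1 h))
    have hns' : IsSquare (Algebra.norm (ZMod q) (φ d)) ↔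
      Even (Nat.card {j : Jq q e // ¬ IsSquare (ψ j d)}) := hns
    rw [← hns']
    set g : ZMod q := (Matrix.of fun i j => Algebra.trace (ZMod q) (∀ j, k j)
      (φ u * b i * b j)).det with hg
    have hg0 : g ≠ 0 := by
      have h1 := hdet 0
      have h2 := hd₁ 0
      intro h3
      apply h2
      rw [← ZMod.intCast_zmod_eq_zero_iff_dvd, h1]
      exact h3
    have e1 : (((Matrix.blockDiagonal V₁).det : ℤ) : ZMod q) =
        g * (g * ((-1) ^ f * Algebra.norm (ZMod q) (φ d))) := by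
      rw [Matrix.det_blockDiagonal, Fin.prod_univ_two, Int.cast_mul, hdet 0, hdet 1]
      have e2 : (Matrix.of fun i j => Algebra.trace (ZMod q) (∀ j, k j)
          (φ (uu 0) * b i * b j)).det = g := rfl
      have e3 : (Matrix.of fun i j => Algebra.trace (ZMod q) (∀ j, k j)
          (φ (uu 1) * b i * b j)).det = g * ((-1) ^ f * Algebra.norm (ZMod q) (φ d)) := by
        have e4 : φ (uu 1) = (-φ d) * φ u := by
          show φ (-(d * u)) = _
          rw [map_neg, map_mul]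
          ring
        have e5 : Algebra.norm (ZMod q) (-φ d) = (-1) ^ f * Algebra.norm (ZMod q) (φ d) := by
          have e6 : -φ d = algebraMap (ZMod q) (∀ j, k j) (-1) * φ d := by
            rw [map_neg, map_one]
            ring
          rw [e6, map_mul, Algebra.norm_algebraMap_of_basis b, Fintype.card_fin]
        rw [e4, hnorm, e5]
      rw [e2, e3]
    have e7 : ((((-1) ^ (Fintype.card (Fin f × Fin 2) / 2) *
        (Matrix.blockDiagonal V₁).det : ℤ)) : ZMod q) =
        Algebra.norm (ZMod q) (φ d) * (g * (-1) ^ f) ^ 2 := by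
      rw [Int.cast_mul, e1, hcard, Nat.mul_div_cancel _ two_pos]
      push_cast
      ring
    rw [e7]
    have hgu : g * (-1) ^ f ≠ 0 := mul_ne_zero hg0 (pow_ne_zero _ (by
      rw [Ne, neg_eq_zero]
      exact one_ne_zero))
    constructor
    · rintro ⟨z, hz⟩
      refine ⟨z / (g * (-1) ^ f), ?_⟩
      field_simp
      field_simp at hz
      linear_combination hz
    · rintro ⟨z, hz⟩
      exact ⟨z * (g * (-1) ^ f), by rw [hz]; ring⟩
  rw [if_congr hval rfl rfl] at hblock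
  set E : Fin 2 × (Fin f ⊕ Fin r) ≃ (Fin f × Fin 2) ⊕ (Fin r × Fin 2) :=
    (Equiv.prodComm _ _).trans (Equiv.sumProdDistrib _ _ _) with hE
  have h1 := HV_reindex hblock E
  obtain ⟨B, hB⟩ := hw.basis hq.out
  refine hv_tf B hB zz ?_
  convert h1 using 2
  ext ⟨i, s⟩ ⟨j, t⟩
  rw [Matrix.map_apply, Matrix.of_apply, Matrix.submatrix_apply, Matrix.map_apply]
  congr 1
  rcases s with s | s <;> rcases t with t | t
  · show _ = (q : ℤ) * (if i = j then V₁ i s t else 0)
    by_cases h : i = j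
    · rw [if_pos h, if_pos h, c11]
      rfl
    · rw [if_neg h, if_neg h, mul_zero]
  · show _ = (q : ℤ) * (if i = j then Bm i s t else 0)
    by_cases h : i = j
    · rw [if_pos h, if_pos h, c12]
      rfl
    · rw [if_neg h, if_neg h, mul_zero]
  · show _ = (q : ℤ) * (if j = i then Bm j t s else 0)
    by_cases h : i = j
    · subst h
      rw [if_pos rfl, if_pos rfl, c12, mul_right_comm]
      rfl
    · rw [if_neg h, if_neg (Ne.symm h), mul_zero]
  · show _ = (if i = j then V₀ i s t else 0)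
    by_cases h : i = j
    · rw [if_pos h, if_pos h, hV₀]
      rfl
    · rw [if_neg h, if_neg h]

end local_

end Pool.Agent.Helper82.RC
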