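import Pool.Agent.Helper82.RC.App
import Pool.Graph.R_pool_sql_team_seeded_63374d34.N783.PF.Rec2
import Pool.Graph.R_pool_sql_team_seeded_63374d34.N286.PF.HV
import Pool.Graph.R_pool_sql_team_seeded_63374d34.N935.PF.TRP
import Pool.Graph.R_pool_sql_team_seeded_63374d34.N783.PF.Trr2

/-!
# A quadratic reciprocity law over number fields

helper82. The assembly follows the library module N783/PF/Rec2.
-/

set_option autoImplicit false
set_option linter.all false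
set_option maxHeartbeats 4000000

open Matrix NumberField IsDedekindDomain Module WithZero

namespace Pool.Agent.Helper82.RC

open Pool.Agent.N783.PF (HV Apx Tf)
open Pool.Agent.N783.PF.R2 (Tf_symm Tf_det HV_map HV_uniq pr_eq det_inst)
open Pool.Agent.N202.M4 (hasse hil IsSymbol)

section rec_

variable {F : Type} [Field F] [NumberField F]

open scoped Classical in
/-- The local invariant with the quotient fields. -/
theorem local_hv (blk : S_BLK) (nsq : S_NSQ) {q : ℕ} [hq : Fact q.Prime] (hq2 : q ≠ 2)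
    (hun : ∀ 𝔓 : HeightOneSpectrum (𝓞 F), (q : 𝓞 F) ∉ 𝔓.asIdeal ^ 2) (e d : 𝓞 F)
    (he : ∀ 𝔓 : HeightOneSpectrum (𝓞 F), (q : 𝓞 F) ∈ 𝔓.asIdeal → e ∉ 𝔓.asIdeal ^ 2)
    (hd : ∀ 𝔓 : HeightOneSpectrum (𝓞 F), (q : 𝓞 F) ∈ 𝔓.asIdeal → d ∉ 𝔓.asIdeal) :
    HV ((Tf (Nf d e)).map (Rat.castHom ℚ_[q]))
      (if Even (Nat.card {j : Jq q e // ¬ IsSquare (Ideal.Quotient.mk j.1.asIdeal d)})
        then 1 else -1) := by
  letI h1 : ∀ j : Jq q e, Field (𝓞 F ⧸ j.1.asIdeal) := fun j =>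
    haveI := j.1.isMaximal
    Ideal.Quotient.field j.1.asIdeal
  haveI h2 : ∀ j : Jq q e, Finite (𝓞 F ⧸ j.1.asIdeal) := fun j =>
    Ring.HasFiniteQuotients.finiteQuotient j.1.ne_bot
  letI h3 : ∀ j : Jq q e, Algebra (ZMod q) (𝓞 F ⧸ j.1.asIdeal) := fun j =>
    haveI : CharP (𝓞 F ⧸ j.1.asIdeal) q := by
      rw [CharP.charP_iff_prime_eq_zero hq.out]
      have h1 := Ideal.Quotient.eq_zero_iff_mem.2 j.2.1
      rwa [map_natCast] at h1
    ZMod.algebra _ q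
  exact local_hv0 blk nsq hq2 hun e d he hd (fun j => 𝓞 F ⧸ j.1.asIdeal)
    (fun j => Ideal.Quotient.mk j.1.asIdeal) (fun j => Ideal.Quotient.mk_surjective)
    (fun j a => Ideal.Quotient.eq_zero_iff_mem)

theorem exists_prime (w : HeightOneSpectrum (𝓞 F)) :
    ∃ p : ℕ, p.Prime ∧ (p : 𝓞 F) ∈ w.asIdeal := by
  have h1 : ((Ideal.absNorm w.asIdeal : ℕ) : 𝓞 F) ∈ w.asIdeal := Ideal.absNorm_mem _
  have h0 : Ideal.absNorm w.asIdeal ≠ 0 := by
    rw [Ne, Ideal.absNorm_eq_zero_iff]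
    exact w.ne_bot
  have key : ∀ n : ℕ, n ≠ 0 → (n : 𝓞 F) ∈ w.asIdeal → ∃ p : ℕ, p.Prime ∧ (p : 𝓞 F) ∈ w.asIdeal := by
    intro n
    induction n using Nat.recOnMul with
    | zero => intro h; exact absurd rfl h
    | one =>
      intro _ h
      rw [Nat.cast_one] at h
      exact absurd ((Ideal.eq_top_iff_one _).2 h) w.isPrime.ne_top
    | prime p hp => exact fun _ h => ⟨p, hp, h⟩
    | mul a b iha ihb =>
      intro h hm
      rw [Nat.cast_mul] at hm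
      rcases w.isPrime.mem_or_mem hm with h1 | h1
      · exact iha (left_ne_zero_of_mul h) h1
      · exact ihb (right_ne_zero_of_mul h) h1
  exact key _ h0 h1

/-- **Quadratic reciprocity** for elements `d`, `e` of the ring of integers of a number field. -/
theorem recip (blk : S_BLK) (nsq : S_NSQ) (d e : 𝓞 F) (hd : d ≠ 0) (he : e ≠ 0) (W : ℕ)
    (hW0 : W ≠ 0) (h2W : 2 ∣ W) (hR : ∀ σ : F →+* ℝ, 0 < σ (d : F))
    (hloc : ∀ w : HeightOneSpectrum (𝓞 F), (W : 𝓞 F) ∈ w.asIdeal →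
      IsSquare (algebraMap F (w.adicCompletion F) (d : F)) ∨
      IsSquare (algebraMap F (w.adicCompletion F) (e : F)))
    (hun : ∀ q : ℕ, q.Prime → ¬ q ∣ W → ∀ 𝔓 : HeightOneSpectrum (𝓞 F),
      (q : 𝓞 F) ∉ 𝔓.asIdeal ^ 2)
    (hdW : ∀ w : HeightOneSpectrum (𝓞 F), (W : 𝓞 F) ∉ w.asIdeal → d ∉ w.asIdeal)
    (heW : ∀ w : HeightOneSpectrum (𝓞 F), (W : 𝓞 F) ∉ w.asIdeal → e ∉ w.asIdeal ^ 2) :
    Even (Nat.card {w : HeightOneSpectrum (𝓞 F) // (W : 𝓞 F) ∉ w.asIdeal ∧ e ∈ w.asIdeal ∧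
      ¬ IsSquare (Ideal.Quotient.mk w.asIdeal d)}) := by
  classical
  have hg := Pool.Agent.N286.PF.hvg
  have htrp := Pool.Agent.N935.PF.TRP.trp hg Pool.Agent.N286.PF.hvc
  have htrr := Pool.Agent.N783.PF.R2.trr hg
  have hsym := Pool.Agent.N446.M4.sym_
  obtain ⟨A, hA⟩ : ∃ A, A = Nf d (1 : 𝓞 F) := ⟨_, rfl⟩
  obtain ⟨B, hB⟩ : ∃ B, B = Nf d e := ⟨_, rfl⟩
  have hAs : A.IsSymm := by rw [hA]; exact Nf_symm _ _
  have hBs : B.IsSymm := by rw [hB]; exact Nf_symm _ _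
  have hAd : A.det ≠ 0 := by rw [hA]; exact Nf_det hd one_ne_zero
  have hBd : B.det ≠ 0 := by rw [hB]; exact Nf_det hd he
  have hAd' : @Matrix.det (Fin 2) (fun a b => Classical.propDecidable (a = b)) _ F _ A
      ≠ 0 := ne_of_eq_of_ne (det_inst _ _ _) hAd
  have hBd' : @Matrix.det (Fin 2) (fun a b => Classical.propDecidable (a = b)) _ F _ B
      ≠ 0 := ne_of_eq_of_ne (det_inst _ _ _) hBd
  have hTA : (Tf A).det ≠ 0 := ne_of_eq_of_ne (det_inst _ _ _) (Tf_det hAd')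
  have hTB : (Tf B).det ≠ 0 := ne_of_eq_of_ne (det_inst _ _ _) (Tf_det hBd')
  have hTAs := Tf_symm hAs
  have hTBs := Tf_symm hBs
  obtain ⟨n, φ⟩ : ∃ n : ℕ, Nonempty (Fin n ≃ Fin 2 × Fin (Module.finrank ℚ F)) :=
    ⟨_, ⟨(Fintype.equivFin _).symm⟩⟩
  obtain ⟨φ⟩ := φ
  obtain ⟨a, T, ha, -, hT⟩ := Pool.Agent.N835.PQ.exists_diag ((Tf A).submatrix φ φ)
    (by rw [Matrix.IsSymm, Matrix.transpose_submatrix, hTAs.eq])
    (by rw [Matrix.det_submatrix_equiv_self]; exact hTA)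
  obtain ⟨b, R, hb, -, hR'⟩ := Pool.Agent.N835.PQ.exists_diag ((Tf B).submatrix φ φ)
    (by rw [Matrix.IsSymm, Matrix.transpose_submatrix, hTBs.eq])
    (by rw [Matrix.det_submatrix_equiv_self]; exact hTB)
  have hVA : ∀ (E : Type) [Field E] [CharZero E], HV ((Tf A).map (Rat.castHom E))
      (hasse (hil E) (List.ofFn fun i => (a i : E))) := fun E _ _ => HV_map E _ φ ha hT
  have hVB : ∀ (E : Type) [Field E] [CharZero E], HV ((Tf B).map (Rat.castHom E))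
      (hasse (hil E) (List.ofFn fun i => (b i : E))) := fun E _ _ => HV_map E _ φ hb hR'
  have hT1 : @Matrix.det _ (fun a b => Classical.propDecidable (a = b)) _ ℚ _ (Tf A) ≠ 0 :=
    ne_of_eq_of_ne (det_inst _ _ _) hTA
  have hT2 : @Matrix.det _ (fun a b => Classical.propDecidable (a = b)) _ ℚ _ (Tf B) ≠ 0 :=
    ne_of_eq_of_ne (det_inst _ _ _) hTB
  -- the primes
  set N : ℕ := Ideal.absNorm (Ideal.span {e}) with hN
  have hN0 : N ≠ 0 := by
    rw [hN, Ne, Ideal.absNorm_eq_zero_iff, Ideal.span_singleton_eq_bot]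
    exact he
  have hNe : (N : 𝓞 F) ∈ Ideal.span {e} := Ideal.absNorm_mem _
  set S : Finset ℕ := N.primeFactors.filter fun q => ¬ q ∣ W with hS
  have hSp : ∀ q ∈ S, q.Prime := fun q hq =>
    Nat.prime_of_mem_primeFactors (Finset.mem_filter.1 hq).1
  have hSW : ∀ q ∈ S, ¬ q ∣ W := fun q hq => (Finset.mem_filter.1 hq).2
  have hmemW : ∀ (q : ℕ) (w : HeightOneSpectrum (𝓞 F)), q.Prime → ¬ q ∣ W →
      (q : 𝓞 F) ∈ w.asIdeal → (W : 𝓞 F) ∉ w.asIdeal := by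
    intro q w hq hqW h1 h2
    have hc : IsCoprime (q : ℤ) (W : ℤ) := Nat.isCoprime_iff_coprime.2
      ((Nat.Prime.coprime_iff_not_dvd hq).2 hqW)
    obtain ⟨u, v, huv⟩ := hc
    have h3 : (1 : 𝓞 F) ∈ w.asIdeal := by
      have := congrArg (Int.cast : ℤ → 𝓞 F) huv
      push_cast at this
      rw [← this]
      exact w.asIdeal.add_mem (w.asIdeal.mul_mem_left _ h1) (w.asIdeal.mul_mem_left _ h2)
    exact w.isPrime.ne_top ((Ideal.eq_top_iff_one _).2 h3)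
  have hmemW' : ∀ (q : ℕ) (w : HeightOneSpectrum (𝓞 F)), q ∣ W → (q : 𝓞 F) ∈ w.asIdeal →
      (W : 𝓞 F) ∈ w.asIdeal := by
    rintro q w ⟨c, rfl⟩ h1
    rw [Nat.cast_mul]
    exact w.asIdeal.mul_mem_right _ h1
  have hmemN : ∀ (q : ℕ) (w : HeightOneSpectrum (𝓞 F)), q.Prime → (q : 𝓞 F) ∈ w.asIdeal →
      e ∈ w.asIdeal → q ∣ N := by
    intro q w hq h1 h2
    by_contra hqN
    have hc : IsCoprime (q : ℤ) (N : ℤ) := Nat.isCoprime_iff_coprime.2
      ((Nat.Prime.coprime_iff_not_dvd hq).2 hqN)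
    obtain ⟨u, v, huv⟩ := hc
    have h4 : (N : 𝓞 F) ∈ w.asIdeal :=
      (Ideal.span_singleton_le_iff_mem w.asIdeal).2 h2 hNe
    have h3 : (1 : 𝓞 F) ∈ w.asIdeal := by
      have := congrArg (Int.cast : ℤ → 𝓞 F) huv
      push_cast at this
      rw [← this]
      exact w.asIdeal.add_mem (w.asIdeal.mul_mem_left _ h1) (w.asIdeal.mul_mem_left _ h4)
    exact w.isPrime.ne_top ((Ideal.eq_top_iff_one _).2 h3)
  have hloc1 : ∀ (q : ℕ) [Fact q.Prime], ¬ q ∣ W → ∀ e' : 𝓞 F,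
      (∀ 𝔓 : HeightOneSpectrum (𝓞 F), (q : 𝓞 F) ∈ 𝔓.asIdeal → e' ∉ 𝔓.asIdeal ^ 2) →
      HV ((Tf (Nf d e')).map (Rat.castHom ℚ_[q]))
        (if Even (Nat.card {j : Jq q e' // ¬ IsSquare (Ideal.Quotient.mk j.1.asIdeal d)})
          then 1 else -1) := by
    intro q hq hqW e' he'
    have hq2 : q ≠ 2 := by
      rintro rfl
      exact hqW h2W
    exact local_hv blk nsq hq2 (hun q hq.out hqW) e' d he'
      (fun 𝔓 h1 => hdW 𝔓 (hmemW q 𝔓 hq.out hqW h1))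
  have hA1 : ∀ (q : ℕ) [Fact q.Prime], ¬ q ∣ W → HV ((Tf A).map (Rat.castHom ℚ_[q])) 1 := by
    intro q hq hqW
    have h1 := hloc1 q hqW 1 (fun 𝔓 _ h => 𝔓.isPrime.ne_top ((Ideal.eq_top_iff_one _).2
      (Ideal.pow_le_self two_ne_zero h)))
    have h2 : IsEmpty (Jq q (1 : 𝓞 F)) := ⟨fun j => j.1.isPrime.ne_top
      ((Ideal.eq_top_iff_one _).2 j.2.2)⟩
    have h3 : Nat.card {j : Jq q (1 : 𝓞 F) // ¬ IsSquare (Ideal.Quotient.mk j.1.asIdeal d)} = 0 := by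
      rw [Nat.card_eq_zero]
      left
      exact ⟨fun j => h2.false j.1⟩
    rw [h3, if_pos Even.zero] at h1
    rw [hA]
    exact h1
  have hB1 : ∀ (q : ℕ) [Fact q.Prime], ¬ q ∣ W → HV ((Tf B).map (Rat.castHom ℚ_[q]))
      (if Even (Nat.card {j : Jq q e // ¬ IsSquare (Ideal.Quotient.mk j.1.asIdeal d)})
        then 1 else -1) := by
    intro q hq hqW
    rw [hB]
    exact hloc1 q hqW e (fun 𝔓 h1 => heW 𝔓 (hmemW q 𝔓 hq.out hqW h1))
  set c : ℕ → ℕ := fun q =>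
    Nat.card {j : Jq q e // ¬ IsSquare (Ideal.Quotient.mk j.1.asIdeal d)} with hc
  set ε : ℕ → ℤ := fun q => if Even (c q) then 1 else -1 with hε
  have key := Pool.Agent.N394.PQ.prd n b a hb ha S hSp
    (by
      have e1 := htrr F (Fin 2) A B hAs hBs hAd' hBd' (fun σ => by
        rw [hA, hB]
        exact real_iso d e σ (hR σ)) _ (hVA ℝ)
      exact HV_uniq hg ℝ Pool.Agent.N835.PQ.symR (Tf B) hTBs hT2 (hVB ℝ) e1)
    (by
      intro p hp hpS
      by_cases hpW : p ∣ W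
      · have hapx : ∀ w : HeightOneSpectrum (𝓞 F), (p : 𝓞 F) ∈ w.asIdeal → Apx w A B := by
          intro w hw
          rw [hA, hB]
          rcases hloc w (hmemW' p w hpW hw) with h1 | h1
          · exact apx_d w d e hd h1
          · exact apx_e w d e h1
        have e1 := htrp F p (Fin 2) A B hAs hBs hAd' hBd' hapx _ (hVA ℚ_[p])
        exact HV_uniq hg ℚ_[p] (hsym p) (Tf B) hTBs hT2 (hVB ℚ_[p]) e1
      · have e1 := hB1 p hpW
        have h2 : IsEmpty (Jq p e) := by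
          refine ⟨fun j => hpS ?_⟩
          rw [hS, Finset.mem_filter, Nat.mem_primeFactors]
          exact ⟨⟨hp.out, hmemN p j.1 hp.out j.2.1 j.2.2, hN0⟩, hpW⟩
        have h3 : Nat.card {j : Jq p e // ¬ IsSquare (Ideal.Quotient.mk j.1.asIdeal d)} = 0 := by
          rw [Nat.card_eq_zero]
          left
          exact ⟨fun j => h2.false j.1⟩
        rw [h3, if_pos Even.zero] at e1
        have e3 := HV_uniq hg ℚ_[p] (hsym p) (Tf B) hTBs hT2 (hVB ℚ_[p]) e1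
        have e4 := HV_uniq hg ℚ_[p] (hsym p) (Tf A) hTAs hT1 (hVA ℚ_[p]) (hA1 p hpW)
        rw [e3, e4])
    ε
    (by
      intro q hq
      simp only [hε]
      split_ifs
      · exact Or.inl rfl
      · exact Or.inr rfl)
    (by
      intro q hq hqp
      have e3 := HV_uniq hg ℚ_[q] (hsym q) (Tf B) hTBs hT2 (hVB ℚ_[q]) (hB1 q (hSW q hq))
      have e4 := HV_uniq hg ℚ_[q] (hsym q) (Tf A) hTAs hT1 (hVA ℚ_[q]) (hA1 q (hSW q hq))
      rw [e3, e4, mul_one])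
  have hfil : (S.filter fun q => ε q = -1) = S.filter fun q => Odd (c q) := by
    refine Finset.filter_congr fun q _ => ?_
    simp only [hε]
    split_ifs with h7
    · simp [h7]
    · simp only [Nat.not_even_iff_odd] at h7
      simp [h7]
  rw [hfil, ← Finset.even_sum_iff_even_card_odd] at key
  -- the count
  have hcount : Nat.card {w : HeightOneSpectrum (𝓞 F) // (W : 𝓞 F) ∉ w.asIdeal ∧ e ∈ w.asIdeal ∧
      ¬ IsSquare (Ideal.Quotient.mk w.asIdeal d)} = ∑ q ∈ S, c q := by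
    have hfin : ∀ q : S, Finite {j : Jq q.1 e // ¬ IsSquare (Ideal.Quotient.mk j.1.asIdeal d)} := by
      intro q
      haveI := finite_Jq (L := F) (hSp q.1 q.2).ne_zero e
      infer_instance
    have h1 : Nat.card (Σ q : S, {j : Jq q.1 e // ¬ IsSquare (Ideal.Quotient.mk j.1.asIdeal d)}) =
        ∑ q ∈ S, c q := by
      rw [Nat.card_sigma, ← Finset.sum_coe_sort S c]
    rw [← h1]
    refine (Nat.card_congr (Equiv.ofBijective (fun x :
      (Σ q : S, {j : Jq q.1 e // ¬ IsSquare (Ideal.Quotient.mk j.1.asIdeal d)}) =>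
      (⟨x.2.1.1, hmemW x.1.1 x.2.1.1 (hSp _ x.1.2) (hSW _ x.1.2) x.2.1.2.1, x.2.1.2.2, x.2.2⟩ :
      {w : HeightOneSpectrum (𝓞 F) // (W : 𝓞 F) ∉ w.asIdeal ∧ e ∈ w.asIdeal ∧
        ¬ IsSquare (Ideal.Quotient.mk w.asIdeal d)})) ⟨?_, ?_⟩)).symm
    · rintro ⟨⟨q, hq⟩, ⟨⟨w, hw⟩, hn⟩⟩ ⟨⟨q', hq'⟩, ⟨⟨w', hw'⟩, hn'⟩⟩ h
      have h3 : w = w' := congrArg Subtype.val h
      subst h3
      have h4 : q = q' := pr_eq (hSp q hq) (hSp q' hq') hw.1 hw'.1
      subst h4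
      rfl
    · rintro ⟨w, hw, hwe, hwd⟩
      obtain ⟨p, hp, hpw⟩ := exists_prime w
      have hpW : ¬ p ∣ W := fun h => hw (hmemW' p w h hpw)
      have hpS : p ∈ S := by
        rw [hS, Finset.mem_filter, Nat.mem_primeFactors]
        exact ⟨⟨hp, hmemN p w hp hpw hwe, hN0⟩, hpW⟩
      exact ⟨⟨⟨p, hpS⟩, ⟨⟨w, hpw, hwe⟩, hwd⟩⟩, rfl⟩
  rw [hcount]
  exact key

end rec_

end Pool.Agent.Helper82.RC
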