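import Pool.Agent.Helper82.RC.Stm

/-!
# Trace forms modulo an unramified prime: products of primes

helper82, after the library modules N545/PF/Spl (helper545), where the residue ring is a field.
-/

set_option autoImplicit false
set_option linter.all false
set_option maxHeartbeats 4000000

open Matrix NumberField IsDedekindDomain Module

namespace Pool.Agent.Helper82.RC

open Pool.Agent.N545.PF (Spl QB exists_bas nondeg trace_dvd)

section spl

variable {L : Type} [Field L] [NumberField L] {q : ℕ}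

variable {Q J : Ideal (𝓞 L)} {e : 𝓞 L}

theorem cast_smul' {K : Type} [CommRing K] [Algebra (ZMod q) K] (n : ℤ) (x : K) :
    ((n : ZMod q)) • x = (n : K) * x := by
  rw [Algebra.smul_def, map_intCast]

variable [hq : Fact q.Prime]

/-- Existence of a good basis modulo `q`. -/
theorem exists_qb' (h : Spl q Q J e) {K : Type} [CommRing K] [Algebra (ZMod q) K]
    (φ : 𝓞 L →+* K)
    (hφ : Function.Surjective φ) (hk : ∀ a, φ a = 0 ↔ a ∈ Q) {f : ℕ}
    (b : Module.Basis (Fin f) (ZMod q) K) :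
    ∃ (r : ℕ) (x : Fin f → 𝓞 L) (y : Fin r → 𝓞 L), (∀ i, x i ∈ J) ∧ (∀ i, φ (x i) = b i) ∧
      (∀ j, y j ∈ Q) ∧ QB q (Sum.elim x y) := by
  have hqJ : (q : 𝓞 L) ∈ J := h.right (Ideal.mem_span_singleton_self _)
  have hφe : φ e = 1 := by
    have h1 := (hk _).2 h.one
    rw [map_sub, map_one, sub_eq_zero] at h1
    exact h1.symm
  have hJe : Ideal.Quotient.mk J (1 - e) = 1 := by
    rw [map_sub, map_one, Ideal.Quotient.eq_zero_iff_mem.2 h.mem, sub_zero]
  obtain ⟨r, c, hc1, hc2⟩ := exists_bas (q := q) (A := 𝓞 L ⧸ J) (by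
    have := Ideal.Quotient.eq_zero_iff_mem.2 hqJ
    rwa [map_natCast] at this)
  choose x0 hx0 using fun i => hφ (b i)
  choose y0 hy0 using fun j => Ideal.Quotient.mk_surjective (c j)
  have hxJ : ∀ i, x0 i * e ∈ J := fun i => J.mul_mem_left _ h.mem
  have hyQ : ∀ j, (1 - e) * y0 j ∈ Q := fun j => Q.mul_mem_right _ h.one
  have hφx : ∀ i, φ (x0 i * e) = b i := fun i => by rw [map_mul, hφe, mul_one, hx0]
  have hψy : ∀ j, Ideal.Quotient.mk J ((1 - e) * y0 j) = c j := fun j => by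
    rw [map_mul, hJe, one_mul, hy0]
  have hφy : ∀ j, φ ((1 - e) * y0 j) = 0 := fun j => (hk _).2 (hyQ j)
  have hψx : ∀ i, Ideal.Quotient.mk J (x0 i * e) = 0 := fun i =>
    Ideal.Quotient.eq_zero_iff_mem.2 (hxJ i)
  refine ⟨r, fun i => x0 i * e, fun j => (1 - e) * y0 j, hxJ, hφx, hyQ, ?_, ?_⟩
  · intro a
    choose α hα using fun i => ZMod.intCast_surjective (b.repr (φ a) i)
    obtain ⟨γ, hγ⟩ := hc1 (Ideal.Quotient.mk J a)
    refine ⟨Sum.elim α γ, ?_⟩
    rw [Fintype.sum_sum_type]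
    simp only [Sum.elim_inl, Sum.elim_inr]
    apply h.inter
    · rw [← hk, map_sub, map_add, map_sum, map_sum]
      have e1 : ∑ i, φ (α i • (x0 i * e)) = φ a := by
        conv_rhs => rw [← b.sum_repr (φ a)]
        refine Finset.sum_congr rfl fun i _ => ?_
        rw [map_zsmul, hφx, ← hα, cast_smul', zsmul_eq_mul]
      have e2 : ∑ j, φ (γ j • ((1 - e) * y0 j)) = 0 := by
        refine Finset.sum_eq_zero fun j _ => ?_
        rw [map_zsmul, hφy, smul_zero]
      rw [e1, e2, add_zero, sub_self]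
    · rw [← Ideal.Quotient.eq_zero_iff_mem, map_sub, map_add, map_sum, map_sum]
      have e1 : ∑ j, Ideal.Quotient.mk J (γ j • ((1 - e) * y0 j)) = Ideal.Quotient.mk J a := by
        rw [hγ]
        refine Finset.sum_congr rfl fun j _ => ?_
        rw [map_zsmul, hψy, zsmul_eq_mul]
      have e2 : ∑ i, Ideal.Quotient.mk J (α i • (x0 i * e)) = 0 := by
        refine Finset.sum_eq_zero fun i _ => ?_
        rw [map_zsmul, hψx, smul_zero]
      rw [e1, e2, zero_add, sub_self]
  · intro α hα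
    rw [Fintype.sum_sum_type] at hα
    simp only [Sum.elim_inl, Sum.elim_inr] at hα
    have h1 := (hk _).2 (h.left hα)
    have h2 := Ideal.Quotient.eq_zero_iff_mem.2 (h.right hα)
    rw [map_add, map_sum, map_sum] at h1 h2
    have e1 : ∑ j, φ (α (Sum.inr j) • ((1 - e) * y0 j)) = 0 := by
      refine Finset.sum_eq_zero fun j _ => ?_
      rw [map_zsmul, hφy, smul_zero]
    have e2 : ∑ i, Ideal.Quotient.mk J (α (Sum.inl i) • (x0 i * e)) = 0 := by
      refine Finset.sum_eq_zero fun i _ => ?_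
      rw [map_zsmul, hψx, smul_zero]
    rw [e1, add_zero] at h1
    rw [e2, zero_add] at h2
    have h3 : ∑ i, ((α (Sum.inl i) : ZMod q)) • b i = 0 := by
      rw [← h1]
      refine Finset.sum_congr rfl fun i _ => ?_
      rw [map_zsmul, hφx, cast_smul', zsmul_eq_mul]
    have h4 : ∑ j, ((α (Sum.inr j) : 𝓞 L ⧸ J)) * c j = 0 := by
      rw [← h2]
      refine Finset.sum_congr rfl fun j _ => ?_
      rw [map_zsmul, hψy, zsmul_eq_mul]
    have h5 := Fintype.linearIndependent_iff.1 b.linearIndependent _ h3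
    have h6 := hc2 _ h4
    rintro (i | j)
    · exact (ZMod.intCast_zmod_eq_zero_iff_dvd _ _).1 (h5 i)
    · exact h6 j

/-- The trace modulo `q` of an element of `J`. -/
theorem trace_res' (h : Spl q Q J e) {K : Type} [CommRing K] [Algebra (ZMod q) K]
    (φ : 𝓞 L →+* K)
    (hk : ∀ a, φ a = 0 ↔ a ∈ Q) {f r : ℕ}
    (b : Module.Basis (Fin f) (ZMod q) K) {x : Fin f → 𝓞 L} {y : Fin r → 𝓞 L}
    (hxb : ∀ i, φ (x i) = b i) (hy : ∀ j, y j ∈ Q) (hw : QB q (Sum.elim x y)) {a : 𝓞 L}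
    (ha : a ∈ J) :
    ((Algebra.trace ℤ (𝓞 L) a : ℤ) : ZMod q) = Algebra.trace (ZMod q) K (φ a) := by
  obtain ⟨m, hm, hm2⟩ := hw.nak
  have hm1 : (m : ZMod q) = 1 := by
    have := (ZMod.intCast_zmod_eq_zero_iff_dvd _ _).2 hm
    push_cast at this
    exact sub_eq_zero.1 this
  choose α hα using fun j => hm2 (a * Sum.elim x y j)
  have h1 := hw.trace hq.out a (fun i j => α j i) hα
  have h2 := congrArg (fun n : ℤ => (n : ZMod q)) h1
  simp only [Int.cast_mul, hm1, one_mul, Int.cast_sum, Int.cast_add, Fintype.sum_sum_type] at h2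
  rw [h2]
  have e1 : ∑ j, ((α (Sum.inr j) (Sum.inr j) : ℤ) : ZMod q) = 0 := by
    refine Finset.sum_eq_zero fun j _ => ?_
    rw [ZMod.intCast_zmod_eq_zero_iff_dvd]
    refine hw.ind (α (Sum.inr j)) ?_ _
    rw [← hα (Sum.inr j), zsmul_eq_mul]
    refine Ideal.mul_mem_left _ _ ?_
    rw [mul_comm]
    exact h.prod (hy j) ha
  rw [e1, add_zero, Algebra.trace_eq_matrix_trace b, Matrix.trace]
  refine Finset.sum_congr rfl fun j _ => ?_
  rw [Matrix.diag_apply, Algebra.leftMulMatrix_eq_repr_mul]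
  have h3 := congrArg φ (hα (Sum.inl j))
  rw [map_zsmul, map_sum, Fintype.sum_sum_type] at h3
  simp only [Sum.elim_inl, Sum.elim_inr, map_zsmul, map_mul, hxb, (hk _).2 (hy _), smul_zero,
    Finset.sum_const_zero, add_zero] at h3
  have h4 : φ a * b j = ∑ i, ((α (Sum.inl j) (Sum.inl i) : ZMod q)) • b i := by
    have e2 : ∑ i, ((α (Sum.inl j) (Sum.inl i) : ZMod q)) • b i =
        ∑ i, α (Sum.inl j) (Sum.inl i) • b i := by
      refine Finset.sum_congr rfl fun i _ => ?_
      rw [cast_smul', zsmul_eq_mul]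
    rw [e2, ← h3, zsmul_eq_mul, ← cast_smul' (q := q), hm1, one_smul]
  have h5 := congrArg (fun y => b.repr y j) h4
  simp only [map_smul, map_sum, Finsupp.smul_apply, Finsupp.finsetSum_apply, b.repr_self,
    smul_eq_mul, Finsupp.single_apply, mul_ite, mul_one, mul_zero, Finset.sum_ite_eq',
    Finset.mem_univ, if_true] at h5
  exact h5.symm

/-- The part of the form at `Q` is unimodular up to the factor `q`. -/
theorem det_V1 (hun : ∀ 𝔓 : HeightOneSpectrum (𝓞 L), (q : 𝓞 L) ∉ 𝔓.asIdeal ^ 2)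
    (h : Spl q Q J e) {K : Type} [CommRing K] [Algebra (ZMod q) K] (φ : 𝓞 L →+* K)
    (hk : ∀ a, φ a = 0 ↔ a ∈ Q) {f r : ℕ}
    (b : Module.Basis (Fin f) (ZMod q) K) {x : Fin f → 𝓞 L} {y : Fin r → 𝓞 L}
    (hx : ∀ i, x i ∈ J)
    (hxb : ∀ i, φ (x i) = b i) (hy : ∀ j, y j ∈ Q) (hw : QB q (Sum.elim x y))
    (v : Fin f → 𝓞 L) {u : 𝓞 L} (hu : IsUnit (φ u)) (hv : ∀ i, φ (v i) = φ u * b i) :
    ¬ (q : ℤ) ∣ (Matrix.of fun i j => Algebra.trace ℤ (𝓞 L) (v i * x j)).det := by
  intro hdvd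
  set V : Matrix (Fin f) (Fin f) ℤ :=
    Matrix.of fun i j => Algebra.trace ℤ (𝓞 L) (v i * x j) with hV
  have h1 : ((Int.castRingHom (ZMod q)).mapMatrix V).det = 0 := by
    rw [← RingHom.map_det]
    exact (ZMod.intCast_zmod_eq_zero_iff_dvd _ _).2 hdvd
  obtain ⟨t, ht, htM⟩ := Matrix.exists_vecMul_eq_zero_iff.2 h1
  choose c hc using fun i => ZMod.intCast_surjective (t i)
  obtain ⟨X, hX⟩ : ∃ X, X = ∑ i, c i • v i := ⟨_, rfl⟩
  have h2 : ∀ j, (q : ℤ) ∣ Algebra.trace ℤ (𝓞 L) (X * x j) := by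
    intro j
    rw [← ZMod.intCast_zmod_eq_zero_iff_dvd]
    have e1 := congrFun htM j
    rw [← e1.trans (Pi.zero_apply j)]
    rw [hX, Finset.sum_mul, map_sum, Int.cast_sum]
    refine Finset.sum_congr rfl fun i _ => ?_
    show _ = t i * ((V i j : ℤ) : ZMod q)
    rw [← hc, ← Int.cast_mul]
    congr 1
    rw [hV, Matrix.of_apply, smul_mul_assoc, map_smul, smul_eq_mul]
  have hφe : φ e = 1 := by
    have h1 := (hk _).2 h.one
    rw [map_sub, map_one, sub_eq_zero] at h1
    exact h1.symm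
  have h3 : X * e ∈ Ideal.span {(q : 𝓞 L)} := by
    refine nondeg hq.out hun _ fun w => ?_
    obtain ⟨α, hα⟩ := hw.span w
    rw [Fintype.sum_sum_type] at hα
    simp only [Sum.elim_inl, Sum.elim_inr] at hα
    have e1 : X * e * w = X * e * (w - (∑ i, α (Sum.inl i) • x i + ∑ j, α (Sum.inr j) • y j)) +
        (∑ i, α (Sum.inl i) • (X * x i - X * ((1 - e) * x i)) +
          ∑ j, α (Sum.inr j) • (X * (y j * e))) := by
      have e2 : ∑ i, α (Sum.inl i) • (X * x i - X * ((1 - e) * x i)) =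
          X * e * ∑ i, α (Sum.inl i) • x i := by
        rw [Finset.mul_sum]
        refine Finset.sum_congr rfl fun i _ => ?_
        rw [mul_smul_comm]
        congr 1
        ring
      have e3 : ∑ j, α (Sum.inr j) • (X * (y j * e)) = X * e * ∑ j, α (Sum.inr j) • y j := by
        rw [Finset.mul_sum]
        refine Finset.sum_congr rfl fun i _ => ?_
        rw [mul_smul_comm]
        congr 1
        ring
      rw [e2, e3]
      ring
    rw [e1, map_add, map_add, map_sum, map_sum]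
    refine dvd_add (trace_dvd (Ideal.mul_mem_left _ _ hα)) (dvd_add ?_ ?_)
    · refine Finset.dvd_sum fun i _ => ?_
      rw [map_smul, smul_eq_mul, map_sub]
      exact (dvd_sub (h2 i)
        (trace_dvd (Ideal.mul_mem_left _ _ (h.prod h.one (hx i))))).mul_left _
    · refine Finset.dvd_sum fun j _ => ?_
      rw [map_smul, smul_eq_mul]
      exact (trace_dvd (Ideal.mul_mem_left _ _ (h.prod (hy j) h.mem))).mul_left _
  have h4 : φ X = 0 := by
    have h5 := (hk _).2 (h.left h3)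
    rwa [map_mul, hφe, mul_one] at h5
  have h5 : φ u * ∑ i, t i • b i = 0 := by
    rw [← h4, hX, map_sum, Finset.mul_sum]
    refine Finset.sum_congr rfl fun i _ => ?_
    rw [map_zsmul, hv, ← hc, cast_smul', zsmul_eq_mul]
    ring
  have h6 : ∑ i, t i • b i = 0 := (hu.mul_right_eq_zero).1 h5
  apply ht
  funext j
  exact Fintype.linearIndependent_iff.1 b.linearIndependent _ h6 j

end spl

end Pool.Agent.Helper82.RC
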