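import Pool.Graph.R_pool_sql_team_seeded_63374d34.N545.PF.TFQ

/-!
# Quadratic reciprocity over number fields: statements of the parts

helper82. The reciprocity law is proved by transfer of binary forms to the rational numbers.
-/

set_option autoImplicit false
set_option linter.all false

open Matrix NumberField IsDedekindDomain Module WithZero

namespace Pool.Agent.Helper82.RC

open Pool.Agent.N783.PF (HV Apx Tf)

/-- The Hasse invariant of a unimodular form plus `q` times a unimodular form of even rank, for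
every odd prime `q`. -/
def S_BLK : Prop := ∀ (q : ℕ) [Fact q.Prime], q ≠ 2 → ∀ (ι κ : Type) [Fintype ι] [Fintype κ]
  [DecidableEq ι] [DecidableEq κ], Even (Fintype.card ι) →
  ∀ (V₁ : Matrix ι ι ℤ) (B : Matrix ι κ ℤ) (V₀ : Matrix κ κ ℤ),
  V₁.IsSymm → V₀.IsSymm → ¬ (q : ℤ) ∣ V₁.det → ¬ (q : ℤ) ∣ V₀.det →
  HV ((Matrix.fromBlocks ((q : ℤ) • V₁) ((q : ℤ) • B) ((q : ℤ) • Bᵀ) V₀).map
      (Int.castRingHom ℚ_[q]))
    (if IsSquare ((((-1) ^ (Fintype.card ι / 2) * V₁.det : ℤ)) : ZMod q) then 1 else -1)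

/-- The norm of a unit of a product of finite fields is a square if and only if the number of
components which are not squares is even. -/
def S_NSQ : Prop := ∀ (q : ℕ) [Fact q.Prime], q ≠ 2 → ∀ (J : Type) [Fintype J] (k : J → Type)
  [∀ j, Field (k j)] [∀ j, Finite (k j)] [∀ j, Algebra (ZMod q) (k j)] (c : ∀ j, k j),
  (∀ j, c j ≠ 0) →
  (IsSquare (Algebra.norm (ZMod q) c) ↔ Even (Nat.card {j // ¬ IsSquare (c j)}))

end Pool.Agent.Helper82.RC
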